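import Pool.Agent.Lib.MP_3d11e1_an.Birkhoff

/-!
# Birkhoff sums of smooth functions with zero mean do not stay away from zero
-/

namespace Pool.Agent.Lib.MP_3d11e1_an

open Finset UnitAddTorus Filter Topology

variable {d : ℕ}

/-- The signed distance of `n · α` to the nearest integer. -/
noncomputable def sfrac (α : Fin d → ℝ) (n : Fin d → ℤ) : ℝ := dot n α - round (dot n α)

lemma ee_sfrac (α : Fin d → ℝ) (n : Fin d → ℤ) (j : ℕ) :
    ee (j * sfrac α n) = ee (j * dot n α) := by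
  have : (j : ℝ) * dot n α = j * sfrac α n + ((j * round (dot n α) : ℤ) : ℝ) := by
    unfold sfrac; push_cast; ring
  rw [this, ee_add_int]

lemma dirichlet_box (α : Fin d → ℝ) {B : ℕ} (hB : 1 ≤ B) (hBd : 7 * d ≤ B) (J u : ℕ) :
    ∃ κ : ℕ, 1 ≤ κ ∧ κ ≤ B ^ ((u + 2) * d) ∧
    ∀ n ∈ box d B, ‖ee (((κ * J : ℕ) : ℝ) * sfrac α n) - 1‖ ≤ 1 / (B : ℝ) ^ u := by
  have hB0 : (0 : ℝ) < B := by exact_mod_cast hB
  obtain ⟨κ, h1, h2, h3⟩ := dirichlet d (fun i => (J : ℝ) * α i) (B ^ (u + 2))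
    (Nat.one_le_pow _ _ hB)
  refine ⟨κ, h1, by rw [pow_mul]; exact h2, ?_⟩
  intro n hn
  rw [mem_box] at hn
  choose m hm using h3
  have e1 : ee (((κ * J : ℕ) : ℝ) * sfrac α n)
      = ee (∑ i, (n i : ℝ) * ((κ : ℝ) * (J * α i) - m i)) := by
    rw [ee_sfrac]
    have : ((κ * J : ℕ) : ℝ) * dot n α
        = ∑ i, (n i : ℝ) * ((κ : ℝ) * (J * α i) - m i) + ((∑ i, n i * m i : ℤ) : ℝ) := by
      unfold dot
      push_cast
      rw [mul_sum, ← sum_add_distrib]
      exact Finset.sum_congr rfl fun i _ => by ring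
    rw [this, ee_add_int]
  rw [e1]
  refine (norm_ee_sub_one_le _).trans ?_
  have e2 : |∑ i, (n i : ℝ) * ((κ : ℝ) * (J * α i) - m i)| ≤ d * (B * (1 / (B : ℝ) ^ (u + 2))) := by
    refine (abs_sum_le_sum_abs _ _).trans ?_
    have : ∀ i ∈ (univ : Finset (Fin d)), |(n i : ℝ) * ((κ : ℝ) * (J * α i) - m i)|
        ≤ B * (1 / (B : ℝ) ^ (u + 2)) := by
      intro i _
      rw [abs_mul]
      have h4 : |(n i : ℝ)| ≤ B := by exact_mod_cast hn.2 i
      have h5 := hm i
      push_cast at h5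
      exact mul_le_mul h4 h5 (abs_nonneg _) hB0.le
    refine (sum_le_sum this).trans ?_
    rw [sum_const, card_univ, Fintype.card_fin, nsmul_eq_mul]
  have hBd' : 7 * (d : ℝ) ≤ B := by exact_mod_cast hBd
  calc 7 * |∑ i, (n i : ℝ) * ((κ : ℝ) * (J * α i) - m i)|
      ≤ 7 * (d * (B * (1 / (B : ℝ) ^ (u + 2)))) := by gcongr
    _ = (7 * d) * (B * (1 / (B : ℝ) ^ (u + 2))) := by ring
    _ ≤ B * (B * (1 / (B : ℝ) ^ (u + 2))) := by gcongr
    _ = 1 / (B : ℝ) ^ u := by rw [pow_add]; field_simp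

lemma isCk_complex {k : ℕ} {φ : UnitAddTorus (Fin d) → ℝ} (h : IsCk k φ) :
    ContDiff ℝ k (fun x : Fin d → ℝ => ((φ (proj x) : ℝ) : ℂ)) :=
  Complex.ofRealCLM.contDiff.comp h

/-- The Birkhoff sums, at a given point, of a function of class `C^k` with zero mean are not
eventually at least `2`; here `k` depends only on the dimension. -/
theorem zero_mean (d : ℕ) : ∃ k : ℕ, ∀ (α : Fin d → ℝ) (φ : UnitAddTorus (Fin d) → ℝ),
    MinimalRotation α → IsCk k φ → mFourierCoeff (fun x => ((φ x : ℝ) : ℂ)) 0 = 0 →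
    ∀ (x : UnitAddTorus (Fin d)) (N : ℕ), ¬ ∀ m, N ≤ m → 2 ≤ birk α φ m x := by
  obtain ⟨H, hH⟩ := Modes.no_modes d (2 * d + 2)
  obtain ⟨r, hr⟩ := summable_coeff d
  refine ⟨(H + 1) + r, ?_⟩
  intro α φ hα hφ hmean x N hbig
  set f : UnitAddTorus (Fin d) → ℂ := fun x => ((φ x : ℝ) : ℂ) with hf
  have hfc : Continuous f := Complex.continuous_ofReal.comp hφ.continuous
  have hfk : ContDiff ℝ (H + 1 + r : ℕ) (fun y : Fin d → ℝ => f (proj y)) := isCk_complex hφ
  have hw := hr f hfc (H + 1) hfk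
  have h0 : Summable (fun n : Fin d → ℤ => ‖mFourierCoeff f n‖) := by
    have := hr f hfc 0 (hfk.of_le (by exact_mod_cast (by omega : 0 + r ≤ H + 1 + r)))
    simpa using this
  set C := ∑' n : Fin d → ℤ, ‖mFourierCoeff f n‖ * ‖n‖ ^ (H + 1) with hC
  set K := ∑' n : Fin d → ℤ, ‖mFourierCoeff f n‖ with hK
  obtain ⟨B, hB⟩ : ∃ B : ℕ, B = 1000 + 7 * d + (N + 1) + ⌈100 * K⌉₊ + ⌈C⌉₊ := ⟨_, rfl⟩
  have hB1 : 1 ≤ B := by omega
  have hB0 : (0 : ℝ) < B := by exact_mod_cast hB1
  have hBK : 100 * K ≤ B := by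
    have h1 := Nat.le_ceil (100 * K)
    have h2 : ((⌈100 * K⌉₊ : ℕ) : ℝ) ≤ B := by
      have : ⌈100 * K⌉₊ ≤ B := by omega
      exact_mod_cast this
    linarith
  have hBC : C ≤ B := by
    have h1 := Nat.le_ceil C
    have h2 : ((⌈C⌉₊ : ℕ) : ℝ) ≤ B := by
      have : ⌈C⌉₊ ≤ B := by omega
      exact_mod_cast this
    linarith
  have hexp : ∀ j : ℕ, ‖f (x + j • proj α)
      - ∑ n ∈ box d B, (mFourierCoeff f n * mFourier n x) * ee (j * sfrac α n)‖
      ≤ C / (B : ℝ) ^ (H + 1) := by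
    intro j
    have h1 := expansion hfc h0 hw hB1 (x + j • proj α)
    rw [hmean, sub_zero] at h1
    have h2 : ∑ n ∈ box d B, mFourierCoeff f n * mFourier n (x + j • proj α)
        = ∑ n ∈ box d B, (mFourierCoeff f n * mFourier n x) * ee (j * sfrac α n) := by
      refine Finset.sum_congr rfl fun n _ => ?_
      rw [mFourier_orbit, ee_sfrac]; ring
    rwa [h2] at h1
  let X : Modes d :=
    { ι := Fin d → ℤ
      Q := box d B
      s := sfrac α
      a := fun n => mFourierCoeff f n * mFourier n x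
      B := B
      N0 := N + 1
      τ := C / (B : ℝ) ^ (H + 1)
      R := fun j => φ (x + j • proj α)
        - (∑ n ∈ box d B, (mFourierCoeff f n * mFourier n x) * ee (j * sfrac α n)).re
      hB := by omega
      hs0 := by
        intro n hn
        rw [mem_box] at hn
        exact sub_ne_zero.mpr (hα.irr hn.1 _)
      hs1 := fun n _ => abs_sub_round _
      hK := by
        have h1 : ∀ n ∈ box d B, ‖mFourierCoeff f n * mFourier n x‖ = ‖mFourierCoeff f n‖ := by
          intro n _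
          rw [norm_mul, norm_mFourier_apply, mul_one]
        rw [Finset.sum_congr rfl h1, le_div_iff₀ (by norm_num)]
        have h2 := h0.sum_le_tsum (box d B) (fun n _ => norm_nonneg _)
        linarith
      hR := by
        intro j
        have h1 := hexp j
        have h2 := Complex.abs_re_le_norm (f (x + j • proj α)
          - ∑ n ∈ box d B, (mFourierCoeff f n * mFourier n x) * ee (j * sfrac α n))
        rw [Complex.sub_re] at h2
        have h3 : (f (x + j • proj α)).re = φ (x + j • proj α) := by simp [hf]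
        rw [h3] at h2
        exact h2.trans h1
      hN0 := by omega
      hN0B := by omega
      hS := by
        intro n hn
        have h1 := hbig n (by omega)
        unfold birk at h1
        simpa using h1
      dir := fun J u => dirichlet_box α hB1 (by omega) J u }
  refine hH X ?_ ?_
  · change C / (B : ℝ) ^ (H + 1) ≤ 1 / (B : ℝ) ^ H
    rw [pow_succ, ← div_div, div_le_iff₀ hB0, div_mul_eq_mul_div, one_mul]
    gcongr
  · intro hch
    obtain ⟨q, hq1, hq2, hq3⟩ := hch.seq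
    rcases Nat.eq_zero_or_pos d with hd | hd
    · subst hd
      have h1 : q 0 ∈ box 0 B := hq1 0
      rw [mem_box] at h1
      exact h1.1 (Subsingleton.elim _ _)
    · refine rank_lemma hd α (B := B) (by omega) q ?_ (fun j => round (dot (q j) α))
        (fun j => sfrac α (q j)) (fun j => rfl) (fun j => X.hs0 _ (hq1 j)) hq2 hq3
      intro j i
      have h1 : q j ∈ box d B := hq1 j
      rw [mem_box] at h1
      exact h1.2 i

end Pool.Agent.Lib.MP_3d11e1_an
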