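import Pool.Agent.Lib.MP_3d11e1_an.Induct

/-!
# Diophantine facts: simultaneous approximation and the rank lemma
-/

namespace Pool.Agent.Lib.MP_3d11e1_an

open Finset

/-- Dirichlet's simultaneous approximation theorem. -/
theorem dirichlet (d : ℕ) (β : Fin d → ℝ) (M : ℕ) (hM : 1 ≤ M) :
    ∃ κ : ℕ, 1 ≤ κ ∧ κ ≤ M ^ d ∧ ∀ i, ∃ m : ℤ, |(κ : ℝ) * β i - m| ≤ 1 / M := by
  have hM0 : (0 : ℝ) < M := by exact_mod_cast hM
  let f : Fin (M ^ d + 1) → (Fin d → Fin M) := fun k i =>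
    ⟨⌊Int.fract ((k : ℕ) * β i) * M⌋₊, by
      rw [Nat.floor_lt (by have := Int.fract_nonneg ((k : ℕ) * β i); positivity)]
      have := Int.fract_lt_one ((k : ℕ) * β i)
      nlinarith⟩
  have hcard : Fintype.card (Fin d → Fin M) < Fintype.card (Fin (M ^ d + 1)) := by
    simp
  obtain ⟨x, y, hxy, hf⟩ := Fintype.exists_ne_map_eq_of_card_lt f hcard
  -- order them
  obtain ⟨x, y, hxy, hf⟩ : ∃ x y : Fin (M ^ d + 1), x < y ∧ f x = f y := by
    rcases lt_or_gt_of_ne hxy with h | h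
    · exact ⟨x, y, h, hf⟩
    · exact ⟨y, x, h, hf.symm⟩
  have hxy' : (x : ℕ) < (y : ℕ) := hxy
  refine ⟨(y : ℕ) - (x : ℕ), by omega, by have := y.2; omega, ?_⟩
  intro i
  refine ⟨⌊(y : ℕ) * β i⌋ - ⌊(x : ℕ) * β i⌋, ?_⟩
  have h1 : ⌊Int.fract ((x : ℕ) * β i) * M⌋₊ = ⌊Int.fract ((y : ℕ) * β i) * M⌋₊ := by
    have := congrFun hf i
    simpa [f] using this
  have hfx0 := Int.fract_nonneg ((x : ℕ) * β i)
  have hfy0 := Int.fract_nonneg ((y : ℕ) * β i)
  have a1 := Nat.floor_le (show 0 ≤ Int.fract ((x : ℕ) * β i) * M by positivity)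
  have a2 := Nat.lt_floor_add_one (Int.fract ((x : ℕ) * β i) * M)
  have a3 := Nat.floor_le (show 0 ≤ Int.fract ((y : ℕ) * β i) * M by positivity)
  have a4 := Nat.lt_floor_add_one (Int.fract ((y : ℕ) * β i) * M)
  rw [h1] at a1 a2
  have hcast : (((y : ℕ) - (x : ℕ) : ℕ) : ℝ) = (y : ℕ) - (x : ℕ) := by
    rw [Nat.cast_sub hxy'.le]
  have key : (((y : ℕ) - (x : ℕ) : ℕ) : ℝ) * β i
      - ((⌊(y : ℕ) * β i⌋ - ⌊(x : ℕ) * β i⌋ : ℤ) : ℝ)
      = Int.fract ((y : ℕ) * β i) - Int.fract ((x : ℕ) * β i) := by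
    rw [hcast, Int.fract, Int.fract]; push_cast; ring
  rw [key, le_div_iff₀ hM0, ← abs_of_pos hM0, ← abs_mul, abs_le]
  constructor <;> nlinarith

attribute [local instance] Matrix.seminormedAddCommGroup

/-- Siegel's lemma, in the form needed. -/
theorem siegel {d : ℕ} (hd : 0 < d) {B : ℕ} (hBd : d + 1 ≤ B) (q : Fin (d + 1) → (Fin d → ℤ))
    (hq : ∀ j i, |q j i| ≤ (B : ℤ)) :
    ∃ t : Fin (d + 1) → ℤ, t ≠ 0 ∧ (∀ i, ∑ j, q j i * t j = 0) ∧
      ∀ j, |(t j : ℝ)| ≤ (B : ℝ) ^ (2 * d) := by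
  let A : Matrix (Fin d) (Fin (d + 1)) ℤ := fun i j => q j i
  have hB1 : (1 : ℝ) ≤ B := by
    have : 1 ≤ B := by omega
    exact_mod_cast this
  obtain ⟨t, ht0, ht1, ht2⟩ := Int.Matrix.exists_ne_zero_int_vec_norm_le A (by simp) (by simpa using hd)
  refine ⟨t, ht0, ?_, ?_⟩
  · intro i
    have := congrFun ht1 i
    simpa [Matrix.mulVec, dotProduct, A] using this
  · intro j
    have hA : ‖A‖ ≤ B := by
      rw [Matrix.norm_le_iff (by linarith)]
      intro i j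
      have := hq j i
      rw [Int.norm_eq_abs]
      exact_mod_cast this
    have h1 : ‖t‖ ≤ (B : ℝ) ^ (2 * d) := by
      refine ht2.trans ?_
      simp only [Fintype.card_fin]
      have e1 : ((d : ℕ) : ℝ) / (((d + 1 : ℕ) : ℝ) - (d : ℕ)) = (d : ℕ) := by
        push_cast
        rw [add_sub_cancel_left, div_one]
      rw [e1, Real.rpow_natCast, pow_mul]
      have e2 : max 1 ‖A‖ ≤ B := max_le hB1 hA
      have e3 : ((d + 1 : ℕ) : ℝ) ≤ B := by exact_mod_cast hBd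
      have e4 : (0 : ℝ) ≤ max 1 ‖A‖ := by positivity
      have e5 : ((d + 1 : ℕ) : ℝ) * max 1 ‖A‖ ≤ (B : ℝ) ^ 2 := by
        rw [sq]
        exact mul_le_mul e3 e2 e4 (by linarith)
      gcongr
    have h2 := norm_le_pi_norm t j
    rw [Int.norm_eq_abs] at h2
    exact h2.trans h1

/-- Frequencies of bounded modes cannot form a long well separated chain. -/
theorem rank_lemma {d : ℕ} (hd : 0 < d) (α : Fin d → ℝ) {B : ℕ} (hB : d + 2 ≤ B)
    (q : Fin (d + 1) → (Fin d → ℤ)) (hq : ∀ j i, |q j i| ≤ (B : ℤ)) (m : Fin (d + 1) → ℤ)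
    (s : Fin (d + 1) → ℝ) (hs : ∀ j, s j = ∑ i, (q j i : ℝ) * α i - m j) (hs0 : ∀ j, s j ≠ 0)
    (h0 : ∀ j, |s j| ≤ 1 / (B : ℝ) ^ (2 * d + 2))
    (hstep : ∀ j k, j < k → |s k| ≤ |s j| / (B : ℝ) ^ (2 * d + 2)) : False := by
  obtain ⟨t, ht0, ht1, ht2⟩ := siegel hd (by omega) q hq
  have hB1 : ((d : ℝ) + 2) ≤ B := by exact_mod_cast hB
  have hB0 : (0 : ℝ) < B := by linarith [(Nat.cast_nonneg d : (0 : ℝ) ≤ d)]
  have hBB : ((d : ℝ) + 1) * (B : ℝ) ^ (2 * d) < (B : ℝ) ^ (2 * d + 2) := by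
    have h1 : (B : ℝ) ^ (2 * d + 2) = (B : ℝ) ^ (2 * d) * (B * B) := by ring
    rw [h1]
    have h2 : (0 : ℝ) < (B : ℝ) ^ (2 * d) := by positivity
    have h4 : (0 : ℝ) ≤ d := Nat.cast_nonneg d
    have h3 : (d : ℝ) + 1 < B * B := by nlinarith
    nlinarith
  have hP : (0 : ℝ) < (B : ℝ) ^ (2 * d + 2) := by positivity
  -- the combination is an integer
  have hint : ∑ j, (t j : ℝ) * s j = ((-∑ j, t j * m j : ℤ) : ℝ) := by
    have h1 : ∀ j, (t j : ℝ) * s j = ∑ i, ((q j i * t j : ℤ) : ℝ) * α i - ((t j * m j : ℤ) : ℝ) := by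
      intro j
      rw [hs, mul_sub, mul_sum]
      congr 1
      · refine sum_congr rfl fun i _ => ?_
        push_cast; ring
      · push_cast; ring
    simp_rw [h1]
    rw [sum_sub_distrib, sum_comm]
    have h2 : ∑ i, ∑ j, ((q j i * t j : ℤ) : ℝ) * α i = 0 := by
      refine sum_eq_zero fun i _ => ?_
      rw [← sum_mul, ← Int.cast_sum, ht1 i]
      simp
    rw [h2]
    push_cast
    ring
  have hsmall : |∑ j, (t j : ℝ) * s j| < 1 := by
    refine lt_of_le_of_lt (abs_sum_le_sum_abs _ _) ?_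
    have h1 : ∀ j ∈ (univ : Finset (Fin (d + 1))), |(t j : ℝ) * s j|
        ≤ (B : ℝ) ^ (2 * d) * (1 / (B : ℝ) ^ (2 * d + 2)) := by
      intro j _
      rw [abs_mul]
      exact mul_le_mul (ht2 j) (h0 j) (abs_nonneg _) (by positivity)
    refine lt_of_le_of_lt (sum_le_sum h1) ?_
    rw [sum_const, card_univ, Fintype.card_fin, nsmul_eq_mul]
    push_cast
    rw [mul_one_div, ← mul_div_assoc, div_lt_one hP]
    exact hBB
  have hzero : ∑ j, (t j : ℝ) * s j = 0 := by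
    rw [hint] at hsmall ⊢
    have : |(-∑ j, t j * m j : ℤ)| < 1 := by exact_mod_cast hsmall
    rw [Int.abs_lt_one_iff] at this
    rw [this]; simp
  -- first nonzero coefficient
  have hex : (univ.filter (fun j => t j ≠ 0)).Nonempty := by
    by_contra hcon
    rw [Finset.not_nonempty_iff_eq_empty, Finset.filter_eq_empty_iff] at hcon
    apply ht0
    ext j
    have := hcon (mem_univ j)
    push Not at this
    exact this
  set j0 := (univ.filter (fun j => t j ≠ 0)).min' hex with hj0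
  have hj0mem : t j0 ≠ 0 := by
    have := Finset.min'_mem _ hex
    rw [mem_filter] at this
    exact this.2
  have hj0min : ∀ j, t j ≠ 0 → j0 ≤ j := by
    intro j hj
    exact Finset.min'_le (univ.filter (fun j => t j ≠ 0)) j (by simp [hj])
  have hrest : |∑ j ∈ univ.erase j0, (t j : ℝ) * s j| < |s j0| := by
    refine lt_of_le_of_lt (abs_sum_le_sum_abs _ _) ?_
    have h1 : ∀ j ∈ (univ : Finset (Fin (d + 1))).erase j0, |(t j : ℝ) * s j|
        ≤ (B : ℝ) ^ (2 * d) * (|s j0| / (B : ℝ) ^ (2 * d + 2)) := by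
      intro j hj
      rw [mem_erase] at hj
      rw [abs_mul]
      by_cases htj : t j = 0
      · rw [htj]; simp; positivity
      · have hlt : j0 < j := lt_of_le_of_ne (hj0min j htj) (Ne.symm hj.1)
        exact mul_le_mul (ht2 j) (hstep j0 j hlt) (abs_nonneg _) (by positivity)
    refine lt_of_le_of_lt (sum_le_sum h1) ?_
    rw [sum_const, nsmul_eq_mul]
    have hcard : ((#(univ.erase j0) : ℕ) : ℝ) ≤ (d : ℝ) + 1 := by
      have : #((univ : Finset (Fin (d + 1))).erase j0) ≤ d + 1 := by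
        rw [card_erase_of_mem (mem_univ _)]; simp
      exact_mod_cast this
    have hsp : 0 < |s j0| := abs_pos.mpr (hs0 j0)
    have h2 : ((#(univ.erase j0) : ℕ) : ℝ) * ((B : ℝ) ^ (2 * d) * (|s j0| / (B : ℝ) ^ (2 * d + 2)))
        ≤ ((d : ℝ) + 1) * ((B : ℝ) ^ (2 * d) * (|s j0| / (B : ℝ) ^ (2 * d + 2))) := by
      gcongr
    refine lt_of_le_of_lt h2 ?_
    have h3 : ((d : ℝ) + 1) * ((B : ℝ) ^ (2 * d) * (|s j0| / (B : ℝ) ^ (2 * d + 2)))
        = |s j0| * ((((d : ℝ) + 1) * (B : ℝ) ^ (2 * d)) / (B : ℝ) ^ (2 * d + 2)) := by ring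
    rw [h3]
    have h4 : (((d : ℝ) + 1) * (B : ℝ) ^ (2 * d)) / (B : ℝ) ^ (2 * d + 2) < 1 := by
      rw [div_lt_one hP]; exact hBB
    nlinarith
  have hsum : (t j0 : ℝ) * s j0 = - ∑ j ∈ univ.erase j0, (t j : ℝ) * s j := by
    rw [← Finset.add_sum_erase _ _ (mem_univ j0)] at hzero
    linarith
  have h5 : |(t j0 : ℝ) * s j0| < |s j0| := by
    rw [hsum, abs_neg]; exact hrest
  rw [abs_mul] at h5
  have h6 : (1 : ℝ) ≤ |(t j0 : ℝ)| := by
    have : 1 ≤ |t j0| := Int.one_le_abs hj0mem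
    exact_mod_cast this
  have h7 := abs_nonneg (s j0)
  nlinarith

lemma Modes.Chain.seq {d : ℕ} {X : Modes d} {g : ℕ} : ∀ {m : ℕ} {θ : ℝ}, X.Chain g m θ →
    ∃ q : Fin m → X.ι, (∀ j, q j ∈ X.Q) ∧ (∀ j, |X.s (q j)| ≤ θ) ∧
      ∀ j k, j < k → |X.s (q k)| ≤ |X.s (q j)| / (X.B : ℝ) ^ g := by
  intro m
  induction m with
  | zero => intro θ _; exact ⟨fun j => j.elim0, fun j => j.elim0, fun j => j.elim0,
      fun j => j.elim0⟩
  | succ m ih =>
    intro θ h
    obtain ⟨q, hq, h1, h2⟩ := h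
    obtain ⟨q', hq', h1', h2'⟩ := ih h2
    have hb1 : (1 : ℝ) ≤ (X.B : ℝ) ^ g := one_le_pow₀ (by have := X.b_ge; linarith)
    have hle : |X.s q| / (X.B : ℝ) ^ g ≤ |X.s q| := div_le_self (abs_nonneg _) hb1
    refine ⟨Fin.cons q q', ?_, ?_, ?_⟩
    · intro j
      refine Fin.cases ?_ (fun j => ?_) j
      · simpa using hq
      · simpa using hq' j
    · intro j
      refine Fin.cases ?_ (fun j => ?_) j
      · simpa using h1
      · simpa using ((h1' j).trans hle).trans h1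
    · intro j k
      refine Fin.cases ?_ (fun k => ?_) k
      · intro h; exact absurd h (by simp)
      · refine Fin.cases ?_ (fun j => ?_) j
        · intro _
          simpa using h1' k
        · intro h
          have : j < k := by simpa using h
          simpa using h2' j k this

end Pool.Agent.Lib.MP_3d11e1_an
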