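import Pool.Agent.Lib.MP_3d11e1_an.Fourier
import Pool.Agent.Lib.MP_3d11e1_an.Dioph

/-!
# Fourier expansion along an orbit
-/

namespace Pool.Agent.Lib.MP_3d11e1_an

open Finset UnitAddTorus Filter Topology

variable {d : ℕ}

/-- The pairing of an integer vector with a real vector. -/
noncomputable def dot (n : Fin d → ℤ) (y : Fin d → ℝ) : ℝ := ∑ i, (n i : ℝ) * y i

lemma mFourier_proj (n : Fin d → ℤ) (y : Fin d → ℝ) : mFourier n (proj y) = ee (dot n y) := by
  simp only [mFourier, ContinuousMap.coe_mk, proj]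
  unfold ee dot
  have h1 : Complex.I * ((2 * Real.pi * ∑ i, (n i : ℝ) * y i : ℝ) : ℂ)
      = ∑ i, Complex.I * ((2 * Real.pi * ((n i : ℝ) * y i) : ℝ) : ℂ) := by
    rw [← mul_sum, mul_sum (f := fun i => (n i : ℝ) * y i)]
    push_cast
    rfl
  rw [h1, Complex.exp_sum]
  refine Finset.prod_congr rfl fun i _ => ?_
  rw [fourier_coe_apply]
  congr 1
  push_cast
  ring

lemma proj_zsmul (k : ℤ) (α : Fin d → ℝ) : k • proj α = proj (fun i => (k : ℝ) * α i) := by
  ext i
  simp only [proj, Pi.smul_apply]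
  rw [← AddCircle.coe_zsmul, zsmul_eq_mul]

lemma proj_nsmul (k : ℕ) (α : Fin d → ℝ) : k • proj α = proj (fun i => (k : ℝ) * α i) := by
  have := proj_zsmul (k : ℤ) α
  rw [natCast_zsmul] at this
  simpa using this

lemma dot_smul (n : Fin d → ℤ) (c : ℝ) (α : Fin d → ℝ) :
    dot n (fun i => c * α i) = c * dot n α := by
  unfold dot
  rw [mul_sum]
  exact Finset.sum_congr rfl fun i _ => by ring

lemma mFourier_orbit (n : Fin d → ℤ) (x : UnitAddTorus (Fin d)) (α : Fin d → ℝ) (j : ℕ) :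
    mFourier n (x + j • proj α) = mFourier n x * ee (j * dot n α) := by
  rw [mFourier_add_arg, proj_nsmul, mFourier_proj, dot_smul]

lemma MinimalRotation.irr {α : Fin d → ℝ} (h : MinimalRotation α) {n : Fin d → ℤ} (hn : n ≠ 0)
    (m : ℤ) : dot n α ≠ m := by
  intro hm
  obtain ⟨i, hi⟩ : ∃ i, n i ≠ 0 := by
    by_contra hcon
    push Not at hcon
    exact hn (funext hcon)
  have hcl : IsClosed {y : UnitAddTorus (Fin d) | mFourier n y = 1} :=
    isClosed_eq (mFourier n).continuous continuous_const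
  have hsub : (Set.range fun k : ℤ => (0 : UnitAddTorus (Fin d)) + k • proj α)
      ⊆ {y : UnitAddTorus (Fin d) | mFourier n y = 1} := by
    rintro _ ⟨k, rfl⟩
    simp only [Set.mem_ofPred_eq, zero_add]
    rw [proj_zsmul, mFourier_proj, dot_smul, hm]
    have : (k : ℝ) * (m : ℝ) = ((k * m : ℤ) : ℝ) := by push_cast; ring
    rw [this, ee_int]
  have huniv := (h 0).closure_eq
  have h2 : proj (Pi.single i (1 / (2 * (n i : ℝ)))) ∈ {y : UnitAddTorus (Fin d) | mFourier n y = 1} :=
    (closure_minimal hsub hcl) (by rw [huniv]; trivial)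
  simp only [Set.mem_ofPred_eq] at h2
  rw [mFourier_half n i hi] at h2
  norm_num at h2

lemma isOpenQuotientMap_proj : IsOpenQuotientMap (proj (d := d)) := by
  have : (proj (d := d)) = Pi.map (fun (_ : Fin d) (x : ℝ) => (x : UnitAddCircle)) := by
    funext x i; rfl
  rw [this]
  exact IsOpenQuotientMap.piMap fun i => QuotientAddGroup.isOpenQuotientMap_mk

lemma IsCk.continuous {k : ℕ} {φ : UnitAddTorus (Fin d) → ℝ} (h : IsCk k φ) : Continuous φ := by
  rw [isOpenQuotientMap_proj.isQuotientMap.continuous_iff]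
  exact ContDiff.continuous h

/-- The nonzero integer vectors with entries bounded by `B`. -/
noncomputable def box (d B : ℕ) : Finset (Fin d → ℤ) :=
  (Fintype.piFinset fun _ => Finset.Icc (-(B : ℤ)) B).erase 0

lemma mem_box {B : ℕ} {n : Fin d → ℤ} : n ∈ box d B ↔ n ≠ 0 ∧ ∀ i, |n i| ≤ (B : ℤ) := by
  unfold box
  rw [mem_erase, Fintype.mem_piFinset]
  simp only [mem_Icc, abs_le]

lemma norm_ge_of_notMem_box {B : ℕ} {n : Fin d → ℤ} (hn : n ≠ 0) (h : n ∉ box d B) :
    (B : ℝ) ≤ ‖n‖ := by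
  rw [mem_box] at h
  push Not at h
  obtain ⟨i, hi⟩ := h hn
  have h1 := norm_le_pi_norm n i
  rw [Int.norm_eq_abs] at h1
  have h2 : (B : ℝ) ≤ |((n i : ℤ) : ℝ)| := by
    have : (B : ℤ) ≤ |n i| := hi.le
    exact_mod_cast this
  linarith

/-- Fourier expansion with a quantitative remainder. -/
theorem expansion {f : UnitAddTorus (Fin d) → ℂ} (hfc : Continuous f) {w : ℕ}
    (h0 : Summable (fun n : Fin d → ℤ => ‖mFourierCoeff f n‖))
    (hw : Summable (fun n : Fin d → ℤ => ‖mFourierCoeff f n‖ * ‖n‖ ^ w))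
    {B : ℕ} (hB : 1 ≤ B) (y : UnitAddTorus (Fin d)) :
    ‖f y - mFourierCoeff f 0 - ∑ n ∈ box d B, mFourierCoeff f n * mFourier n y‖
      ≤ (∑' n : Fin d → ℤ, ‖mFourierCoeff f n‖ * ‖n‖ ^ w) / (B : ℝ) ^ w := by
  classical
  have hB0 : (0 : ℝ) < B := by exact_mod_cast hB
  have h1 := hasSum_mFourier_series_apply_of_summable (f := ⟨f, hfc⟩)
    (Summable.of_norm (by simpa using h0)) y
  simp only [ContinuousMap.coe_mk, smul_eq_mul] at h1
  have h2 : HasSum (fun n : Fin d → ℤ => if n ∈ insert 0 (box d B) then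
      mFourierCoeff f n * mFourier n y else 0)
      (∑ n ∈ insert 0 (box d B), mFourierCoeff f n * mFourier n y) := by
    have h2' : HasSum (fun n : Fin d → ℤ => if n ∈ insert 0 (box d B) then
      mFourierCoeff f n * mFourier n y else 0)
      (∑ n ∈ insert 0 (box d B), if n ∈ insert 0 (box d B) then
      mFourierCoeff f n * mFourier n y else 0) := hasSum_sum_of_ne_finset_zero (by
        intro n hn; rw [if_neg hn])
    rwa [Finset.sum_congr rfl (fun n hn => if_pos hn)] at h2'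
  have h3 := h1.sub h2
  rw [Finset.sum_insert (by simp [mem_box])] at h3
  have h4 : mFourier (0 : Fin d → ℤ) y = 1 := by rw [mFourier_zero]; rfl
  rw [h4, mul_one] at h3
  have h5 : f y - mFourierCoeff f 0 - ∑ n ∈ box d B, mFourierCoeff f n * mFourier n y
      = f y - (mFourierCoeff f 0 + ∑ n ∈ box d B, mFourierCoeff f n * mFourier n y) := by ring
  rw [h5]
  have h6 : HasSum (fun n : Fin d → ℤ => ‖mFourierCoeff f n‖ * ‖n‖ ^ w / (B : ℝ) ^ w)
      ((∑' n : Fin d → ℤ, ‖mFourierCoeff f n‖ * ‖n‖ ^ w) / (B : ℝ) ^ w) :=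
    hw.hasSum.div_const _
  refine h3.norm_le_of_bounded h6 fun n => ?_
  by_cases hn : n ∈ insert 0 (box d B)
  · rw [if_pos hn, sub_self, norm_zero]
    positivity
  · rw [if_neg hn, sub_zero, norm_mul, norm_mFourier_apply, mul_one]
    rw [mem_insert, not_or] at hn
    have h7 := norm_ge_of_notMem_box hn.1 hn.2
    rw [le_div_iff₀ (by positivity)]
    gcongr

end Pool.Agent.Lib.MP_3d11e1_an
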