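import Pool.Agent.Lib.MP_3d11e1_an.Final

/-!
# The discreteness condition in topological terms

Over a minimal rotation of `𝕋^d`, `d ≥ 1`, the condition `|φ^(n)(x)| → ∞` says exactly that the
orbit of `(x, t)` is a closed discrete subset of `𝕋^d × ℝ`: it has no accumulation point. This
file is a check of the definitions; the main theorem does not use it.
-/

namespace Pool.Agent.Lib.MP_3d11e1_an

open Filter Topology UnitAddTorus

variable {d : ℕ}

lemma MinimalRotation.zsmul_ne {α : Fin d → ℝ} (h : MinimalRotation α) (hd : 0 < d)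
    {k : ℤ} (hk : k ≠ 0) : k • proj α ≠ 0 := by
  intro h0
  have h1 := congrFun h0 ⟨0, hd⟩
  rw [proj_zsmul] at h1
  simp only [proj, Pi.zero_apply] at h1
  rw [AddCircle.coe_eq_zero_iff] at h1
  obtain ⟨m, hm⟩ := h1
  have h2 : dot (Pi.single ⟨0, hd⟩ k : Fin d → ℤ) α = m := by
    unfold dot
    rw [Finset.sum_eq_single ⟨0, hd⟩]
    · simp only [Pi.single_eq_same]
      rw [← hm]; simp
    · intro j _ hj
      rw [Pi.single_eq_of_ne hj]; simp
    · intro h; exact absurd (Finset.mem_univ _) h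
  refine h.irr (n := Pi.single ⟨0, hd⟩ k) ?_ m h2
  intro h3
  have := congrFun h3 ⟨0, hd⟩
  simp only [Pi.single_eq_same, Pi.zero_apply] at this
  exact hk this

lemma orbit_injective {α : Fin d → ℝ} (h : MinimalRotation α) (hd : 0 < d)
    (φ : UnitAddTorus (Fin d) → ℝ) (p : UnitAddTorus (Fin d) × ℝ) :
    Function.Injective (fun n : ℤ => (cyl α φ ^ n) p) := by
  obtain ⟨x, t⟩ := p
  intro m n hmn
  simp only [cyl_zpow, Prod.mk.injEq] at hmn
  have h1 : (m - n) • proj α = 0 := by
    rw [sub_zsmul, add_left_cancel hmn.1, add_neg_cancel]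
  by_contra hne
  exact h.zsmul_ne hd (sub_ne_zero.mpr hne) h1

/-- Over a minimal rotation, `|φ^(n)(x)| → ∞` as `|n| → ∞` if and only if the orbit of `(x, t)` is
closed and discrete, that is, has no accumulation point. -/
theorem discreteOver_iff {α : Fin d → ℝ} (h : MinimalRotation α) (hd : 0 < d)
    (φ : UnitAddTorus (Fin d) → ℝ) (x : UnitAddTorus (Fin d)) (t : ℝ) :
    DiscreteOver α φ x ↔
      ∀ y, ¬ AccPt y (𝓟 (Set.range fun n : ℤ => (cyl α φ ^ n) (x, t))) := by
  have hinj := orbit_injective h hd φ (x, t)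
  constructor
  · intro hdisc y hacc
    -- a compact neighbourhood of y contains finitely many orbit points
    have h1 : ∀ᶠ n in cofinite, |t| + |y.2| + 1 < |cocycle α φ n x| :=
      hdisc.eventually_gt_atTop _
    rw [eventually_cofinite] at h1
    set S := {n : ℤ | ¬ |t| + |y.2| + 1 < |cocycle α φ n x|} with hS
    have hF : ((fun n : ℤ => (cyl α φ ^ n) (x, t)) '' S).Finite := h1.image _
    rw [accPt_iff_nhds] at hacc
    have hU : (Prod.snd ⁻¹' Set.Ioo (y.2 - 1) (y.2 + 1)) \
        (((fun n : ℤ => (cyl α φ ^ n) (x, t)) '' S) \ {y}) ∈ 𝓝 y := by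
      have h2 : IsOpen ((Prod.snd ⁻¹' Set.Ioo (y.2 - 1) (y.2 + 1)) \
        (((fun n : ℤ => (cyl α φ ^ n) (x, t)) '' S) \ {y}) :
          Set (UnitAddTorus (Fin d) × ℝ)) :=
        (isOpen_Ioo.preimage continuous_snd).sdiff (hF.subset Set.sdiff_subset).isClosed
      refine h2.mem_nhds ⟨?_, ?_⟩
      · simp
      · intro h3; exact h3.2 rfl
    obtain ⟨z, ⟨hz1, hz2⟩, hz3⟩ := hacc _ hU
    obtain ⟨n, rfl⟩ := hz2
    apply hz1.2
    refine ⟨⟨n, ?_, rfl⟩, hz3⟩
    have h4 := hz1.1
    simp only [cyl_zpow, Set.mem_preimage, Set.mem_Ioo] at h4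
    change ¬ |t| + |y.2| + 1 < |cocycle α φ n x|
    push Not
    have h5 : |t + cocycle α φ n x| ≤ |y.2| + 1 := by
      have h6 := le_abs_self y.2
      have h7 := neg_abs_le y.2
      rw [abs_le]
      constructor <;> linarith
    have h6 : |cocycle α φ n x| ≤ |t + cocycle α φ n x| + |t| := by
      have : cocycle α φ n x = (t + cocycle α φ n x) + (-t) := by ring
      calc |cocycle α φ n x| = |(t + cocycle α φ n x) + (-t)| := by rw [← this]
        _ ≤ |t + cocycle α φ n x| + |-t| := abs_add_le _ _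
        _ = _ := by rw [abs_neg]
    linarith
  · intro hacc
    unfold DiscreteOver
    rw [tendsto_atTop]
    intro M
    rw [eventually_cofinite]
    by_contra hinf
    have hinf' : Set.Infinite {n : ℤ | ¬ M ≤ |cocycle α φ n x|} := hinf
    have h1 := hinf'.image (f := fun n : ℤ => (cyl α φ ^ n) (x, t)) hinj.injOn
    have hK : IsCompact ((Set.univ : Set (UnitAddTorus (Fin d))) ×ˢ Set.Icc (t - M) (t + M)) :=
      isCompact_univ.prod isCompact_Icc
    obtain ⟨y, _, hy⟩ := h1.exists_accPt_of_subset_isCompact hK (by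
      rintro _ ⟨n, hn, rfl⟩
      simp only [cyl_zpow, Set.mem_prod, Set.mem_univ, true_and, Set.mem_Icc]
      have hn' : |cocycle α φ n x| < M := not_le.mp hn
      rw [abs_lt] at hn'
      constructor <;> linarith)
    refine hacc y (hy.mono ?_)
    rw [principal_mono]
    rintro _ ⟨n, _, rfl⟩
    exact ⟨n, rfl⟩

end Pool.Agent.Lib.MP_3d11e1_an
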