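import Pool.Agent.Lib.MP_3d11e1_an.Expo

/-!
# The finite core of the argument

`Modes d` collects a trigonometric sum with frequencies `s q`, amplitudes `a q`, a remainder
of size at most `τ`, and the hypothesis that its Birkhoff-like sums stay at least `2` after time
`N0`.
-/

namespace Pool.Agent.Lib.MP_3d11e1_an

open Finset

/-- A trigonometric sum with a small remainder whose summation function is eventually at least
`2`, together with a simultaneous approximation property of its frequencies. -/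
structure Modes (d : ℕ) where
  /-- index set -/
  ι : Type
  /-- the modes -/
  Q : Finset ι
  /-- frequencies -/
  s : ι → ℝ
  /-- amplitudes -/
  a : ι → ℂ
  /-- the scale -/
  B : ℕ
  /-- time after which the sums are large -/
  N0 : ℕ
  /-- size of the remainder -/
  τ : ℝ
  /-- remainder -/
  R : ℕ → ℝ
  hB : 1000 ≤ B
  hs0 : ∀ q ∈ Q, s q ≠ 0
  hs1 : ∀ q ∈ Q, |s q| ≤ 1 / 2
  hK : ∑ q ∈ Q, ‖a q‖ ≤ (B : ℝ) / 100
  hR : ∀ n, |R n| ≤ τ
  hN0 : 1 ≤ N0
  hN0B : N0 ≤ B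
  hS : ∀ n, N0 ≤ n → 2 ≤ ∑ i ∈ range n, ((∑ q ∈ Q, a q * ee (i * s q)).re + R i)
  dir : ∀ J u : ℕ, ∃ κ : ℕ, 1 ≤ κ ∧ κ ≤ B ^ ((u + 2) * d) ∧
    ∀ q ∈ Q, ‖ee (((κ * J : ℕ) : ℝ) * s q) - 1‖ ≤ 1 / (B : ℝ) ^ u

namespace Modes

variable {d : ℕ} (X : Modes d)

/-- The values. -/
noncomputable def F (i : ℕ) : ℝ := (∑ q ∈ X.Q, X.a q * ee (i * X.s q)).re + X.R i

/-- The summation function. -/
noncomputable def S (n : ℕ) : ℝ := ∑ i ∈ range n, X.F i

/-- The total real amplitude of the modes slower than `θ`. -/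
noncomputable def D (θ : ℝ) : ℝ := ∑ q ∈ X.Q with |X.s q| ≤ θ, (X.a q).re

lemma two_le_S {n : ℕ} (hn : X.N0 ≤ n) : 2 ≤ X.S n := X.hS n hn

lemma b_ge : (1000 : ℝ) ≤ X.B := by exact_mod_cast X.hB

lemma b_pos : (0 : ℝ) < X.B := by have := X.b_ge; linarith

lemma τ_nonneg : 0 ≤ X.τ := (abs_nonneg _).trans (X.hR 0)

/-- Window sums, mode by mode. -/
lemma window_eq (A n : ℕ) :
    ∑ i ∈ range n, X.F (A + i) =
      ∑ q ∈ X.Q, (X.a q * ∑ i ∈ range n, ee (((A + i : ℕ) : ℝ) * X.s q)).re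
        + ∑ i ∈ range n, X.R (A + i) := by
  unfold F
  rw [sum_add_distrib]
  congr 1
  rw [← Complex.re_sum, ← Complex.re_sum]
  congr 1
  rw [sum_comm]
  refine sum_congr rfl fun q _ => ?_
  rw [mul_sum]

lemma sum_R_le (A n : ℕ) : |∑ i ∈ range n, X.R (A + i)| ≤ n * X.τ := by
  refine (abs_sum_le_sum_abs _ _).trans ?_
  refine (sum_le_sum (fun i _ => X.hR (A + i))).trans ?_
  rw [sum_const, card_range, nsmul_eq_mul]

lemma sum_amp {y : ℝ} (hy : 0 ≤ y) : ∑ q ∈ X.Q, ‖X.a q‖ * y ≤ X.B / 100 * y := by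
  rw [← sum_mul]
  exact mul_le_mul_of_nonneg_right X.hK hy

/-- Upper bound for the sums at near-return times. -/
theorem upper (P : ℕ) {ρ θ G : ℝ} (hρ0 : 0 ≤ ρ)
    (hρ : ∀ q ∈ X.Q, ‖ee ((P : ℝ) * X.s q) - 1‖ ≤ ρ) (hθ : 0 ≤ θ) (hG : 0 < G)
    (hfast : ∀ q ∈ X.Q, θ < |X.s q| → G ≤ |X.s q|) :
    X.S P ≤ P * X.D θ + X.B / 100 * (P * (7 * (P * θ)) + ρ / (4 * G)) + P * X.τ := by
  have h0 := X.window_eq 0 P
  have hR := X.sum_R_le 0 P
  simp only [zero_add] at h0 hR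
  have hS : X.S P = ∑ i ∈ range P, X.F i := rfl
  rw [hS, h0]
  have hterm : ∀ q ∈ X.Q, (X.a q * ∑ i ∈ range P, ee ((i : ℝ) * X.s q)).re
      ≤ P * (if |X.s q| ≤ θ then (X.a q).re else 0)
        + ‖X.a q‖ * (P * (7 * (P * θ)) + ρ / (4 * G)) := by
    intro q hq
    have hn : 0 ≤ ‖X.a q‖ := norm_nonneg _
    by_cases hc : |X.s q| ≤ θ
    · rw [if_pos hc]
      have h1 := norm_sum_ee_sub_le' (s := X.s q) P
      have h2 : X.a q * ∑ i ∈ range P, ee ((i : ℝ) * X.s q)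
          = (P : ℂ) * X.a q + X.a q * (∑ i ∈ range P, ee ((i : ℝ) * X.s q) - P) := by ring
      have h3 : (X.a q * (∑ i ∈ range P, ee ((i : ℝ) * X.s q) - P)).re
          ≤ ‖X.a q‖ * (P * (7 * (P * θ))) := by
        refine (Complex.re_le_norm _).trans ?_
        rw [norm_mul]
        refine mul_le_mul_of_nonneg_left (h1.trans ?_) hn
        gcongr
      have h4 : ((P : ℂ) * X.a q).re = P * (X.a q).re := by simp
      rw [h2, Complex.add_re, h4]
      have h5 : 0 ≤ ‖X.a q‖ * (ρ / (4 * G)) := by positivity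
      linarith
    · rw [if_neg hc, mul_zero, zero_add]
      push Not at hc
      have h1 := norm_sum_ee_le (X.hs0 q hq) (X.hs1 q hq) 0 P
      simp only [zero_add] at h1
      have h2 := hfast q hq hc
      have h3 : ‖ee ((P : ℝ) * X.s q) - 1‖ / (4 * |X.s q|) ≤ ρ / (4 * G) := by
        have := hρ q hq
        gcongr
      refine (Complex.re_le_norm _).trans ?_
      rw [norm_mul]
      have h5 : 0 ≤ (P : ℝ) * (7 * (P * θ)) := by positivity
      refine mul_le_mul_of_nonneg_left ((h1.trans h3).trans ?_) hn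
      linarith
  have h6 := sum_le_sum hterm
  rw [sum_add_distrib, ← mul_sum, ← sum_filter] at h6
  have h7 : 0 ≤ (P : ℝ) * (7 * (P * θ)) + ρ / (4 * G) := by positivity
  have h8 := X.sum_amp h7
  have h9 := (abs_le.mp hR).2
  unfold D
  linarith

/-- Lower bound for the growth over a window ending at a near-return time. -/
theorem lower (A J : ℕ) {ρ θ E G : ℝ} (hρ0 : 0 ≤ ρ)
    (hρ : ∀ q ∈ X.Q, ‖ee (((A + J : ℕ) : ℝ) * X.s q) - 1‖ ≤ ρ) (hE : 0 ≤ E) (hG : 0 < G)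
    (hslow : ∀ q ∈ X.Q, |X.s q| ≤ θ → |X.s q| ≤ E)
    (hfast : ∀ q ∈ X.Q, θ < |X.s q| → G ≤ |X.s q|) :
    J * X.D θ - X.B / 100 * (J * (ρ + 7 * (J * E)) + 2 / (4 * G)) - J * X.τ
      ≤ X.S (A + J) - X.S A := by
  have hS : X.S (A + J) - X.S A = ∑ i ∈ range J, X.F (A + i) := by
    unfold S
    rw [sum_range_add]
    ring
  rw [hS, X.window_eq A J]
  have hR := X.sum_R_le A J
  have hterm : ∀ q ∈ X.Q, J * (if |X.s q| ≤ θ then (X.a q).re else 0)
        - ‖X.a q‖ * (J * (ρ + 7 * (J * E)) + 2 / (4 * G)) ≤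
        (X.a q * ∑ i ∈ range J, ee (((A + i : ℕ) : ℝ) * X.s q)).re := by
    intro q hq
    have hn : 0 ≤ ‖X.a q‖ := norm_nonneg _
    by_cases hc : |X.s q| ≤ θ
    · rw [if_pos hc]
      have h1 := norm_sum_ee_sub_le (s := X.s q) A J (hρ q hq)
      have h2 : X.a q * ∑ i ∈ range J, ee (((A + i : ℕ) : ℝ) * X.s q)
          = (J : ℂ) * X.a q
            + X.a q * (∑ i ∈ range J, ee (((A + i : ℕ) : ℝ) * X.s q) - J) := by ring
      have h3 : -(‖X.a q‖ * (J * (ρ + 7 * (J * E))))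
          ≤ (X.a q * (∑ i ∈ range J, ee (((A + i : ℕ) : ℝ) * X.s q) - J)).re := by
        have h3' := (abs_le.mp (Complex.abs_re_le_norm
          (X.a q * (∑ i ∈ range J, ee (((A + i : ℕ) : ℝ) * X.s q) - J)))).1
        refine le_trans ?_ h3'
        rw [norm_mul, neg_le_neg_iff]
        refine mul_le_mul_of_nonneg_left (h1.trans ?_) hn
        have := hslow q hq hc
        gcongr
      have h4 : ((J : ℂ) * X.a q).re = J * (X.a q).re := by simp
      rw [h2, Complex.add_re, h4]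
      have h5 : 0 ≤ ‖X.a q‖ * (2 / (4 * G)) := by positivity
      linarith
    · rw [if_neg hc, mul_zero, zero_sub]
      push Not at hc
      have h1 := norm_sum_ee_le (X.hs0 q hq) (X.hs1 q hq) A J
      have h2 := hfast q hq hc
      have h3 : ‖ee ((J : ℝ) * X.s q) - 1‖ / (4 * |X.s q|) ≤ 2 / (4 * G) := by
        have := norm_ee_sub_one_le_two ((J : ℝ) * X.s q)
        gcongr
      have h4 := (abs_le.mp (Complex.abs_re_le_norm
        (X.a q * ∑ i ∈ range J, ee (((A + i : ℕ) : ℝ) * X.s q)))).1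
      refine le_trans ?_ h4
      rw [norm_mul, neg_le_neg_iff]
      have h5 : 0 ≤ (J : ℝ) * (ρ + 7 * (J * E)) := by positivity
      refine mul_le_mul_of_nonneg_left ((h1.trans h3).trans ?_) hn
      linarith
  have h6 := sum_le_sum hterm
  rw [sum_sub_distrib, ← mul_sum, ← sum_filter] at h6
  have h7 : 0 ≤ (J : ℝ) * (ρ + 7 * (J * E)) + 2 / (4 * G) := by positivity
  have h8 := X.sum_amp h7
  have h9 := (abs_le.mp hR).1
  unfold D
  linarith

end Modes

end Pool.Agent.Lib.MP_3d11e1_an
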