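import Mathlib

/-!
# Definitions: minimal rotations of the torus and Besicovitch cylindrical transformations

The torus `𝕋^d = ℝ^d / ℤ^d` is Mathlib's `UnitAddTorus (Fin d)`.
-/

namespace Pool.Agent.Lib.MP_3d11e1_an

/-- The projection `ℝ^d → ℝ^d/ℤ^d`. -/
def proj {d : ℕ} (x : Fin d → ℝ) : UnitAddTorus (Fin d) := fun i => (x i : UnitAddCircle)

/-- The rotation `x ↦ x + α` of the torus is minimal: every orbit is dense. -/
def MinimalRotation {d : ℕ} (α : Fin d → ℝ) : Prop :=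
  ∀ x : UnitAddTorus (Fin d), Dense (Set.range fun n : ℤ => x + n • proj α)

/-- `φ` is of class `C^k` on the torus: its lift to `ℝ^d` is. -/
def IsCk {d : ℕ} (k : ℕ) (φ : UnitAddTorus (Fin d) → ℝ) : Prop :=
  ContDiff ℝ k (fun x : Fin d → ℝ => φ (proj x))

/-- The cylindrical transformation `T_φ (x, t) = (x + α, t + φ x)`, a bijection of
`𝕋^d × ℝ`. -/
def cyl {d : ℕ} (α : Fin d → ℝ) (φ : UnitAddTorus (Fin d) → ℝ) :
    Equiv.Perm (UnitAddTorus (Fin d) × ℝ) where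
  toFun p := (p.1 + proj α, p.2 + φ p.1)
  invFun p := (p.1 - proj α, p.2 - φ (p.1 - proj α))
  left_inv p := by simp
  right_inv p := by simp

/-- The sums `φ^(n)(x) = φ(x) + φ(x + α) + ... + φ(x + (n-1) α)` for `n ≥ 0`. -/
noncomputable def birk {d : ℕ} (α : Fin d → ℝ) (φ : UnitAddTorus (Fin d) → ℝ) (n : ℕ)
    (x : UnitAddTorus (Fin d)) : ℝ :=
  ∑ j ∈ Finset.range n, φ (x + j • proj α)

/-- The sums `φ^(n)(x)` for all integers `n`, with `φ^(-n)(x) = -φ^(n)(x - n α)`. -/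
noncomputable def cocycle {d : ℕ} (α : Fin d → ℝ) (φ : UnitAddTorus (Fin d) → ℝ) :
    ℤ → UnitAddTorus (Fin d) → ℝ
  | Int.ofNat n, x => birk α φ n x
  | Int.negSucc n, x => -birk α φ (n + 1) (x - (n + 1) • proj α)

/-- `T_φ` is topologically transitive: it has a dense orbit. -/
def HasDenseOrbit {d : ℕ} (α : Fin d → ℝ) (φ : UnitAddTorus (Fin d) → ℝ) : Prop :=
  ∃ p : UnitAddTorus (Fin d) × ℝ, Dense (Set.range fun n : ℤ => (cyl α φ ^ n) p)

/-- The orbits of `T_φ` over the point `x` are discrete: `|φ^(n)(x)| → ∞` as `|n| → ∞`. -/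
def DiscreteOver {d : ℕ} (α : Fin d → ℝ) (φ : UnitAddTorus (Fin d) → ℝ)
    (x : UnitAddTorus (Fin d)) : Prop :=
  Filter.Tendsto (fun n : ℤ => |cocycle α φ n x|) Filter.cofinite Filter.atTop

/-- `T_φ` is Besicovitch: it has a dense orbit and a discrete orbit. -/
def Besicovitch {d : ℕ} (α : Fin d → ℝ) (φ : UnitAddTorus (Fin d) → ℝ) : Prop :=
  HasDenseOrbit α φ ∧ ∃ x, DiscreteOver α φ x

end Pool.Agent.Lib.MP_3d11e1_an
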