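import Mathlib

/-!
# Elementary estimates for the exponential `e(t) = exp(2 pi i t)` and its partial sums
-/

namespace Pool.Agent.Lib.MP_3d11e1_an

open Finset

/-- `e(t) = exp(2 pi i t)`. -/
noncomputable def ee (t : ℝ) : ℂ := Complex.exp (Complex.I * ((2 * Real.pi * t : ℝ) : ℂ))

lemma ee_zero : ee 0 = 1 := by simp [ee]

lemma ee_add (x y : ℝ) : ee (x + y) = ee x * ee y := by
  unfold ee
  rw [← Complex.exp_add]
  congr 1
  push_cast
  ring

lemma norm_ee (x : ℝ) : ‖ee x‖ = 1 := by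
  unfold ee
  rw [mul_comm, Complex.norm_exp_ofReal_mul_I]

lemma ee_int (n : ℤ) : ee n = 1 := by
  unfold ee
  have := Complex.exp_int_mul_two_pi_mul_I n
  rw [← this]
  congr 1
  push_cast
  ring

lemma ee_add_int (x : ℝ) (n : ℤ) : ee (x + n) = ee x := by
  rw [ee_add, ee_int, mul_one]

lemma norm_ee_sub_one (x : ℝ) : ‖ee x - 1‖ = 2 * |Real.sin (Real.pi * x)| := by
  unfold ee
  rw [Complex.norm_exp_I_mul_ofReal_sub_one, norm_mul, Real.norm_eq_abs, Real.norm_eq_abs]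
  have : 2 * Real.pi * x / 2 = Real.pi * x := by ring
  rw [this]
  simp

lemma norm_ee_sub_one_le (x : ℝ) : ‖ee x - 1‖ ≤ 7 * |x| := by
  rw [norm_ee_sub_one]
  have h1 : |Real.sin (Real.pi * x)| ≤ |Real.pi * x| := Real.abs_sin_le_abs
  rw [abs_mul, abs_of_pos Real.pi_pos] at h1
  have h2 : Real.pi < 3.15 := Real.pi_lt_d2
  nlinarith [abs_nonneg x]

lemma norm_ee_sub_ee (x y : ℝ) : ‖ee x - ee y‖ ≤ 7 * |x - y| := by
  have h : ee x - ee y = ee y * (ee (x - y) - 1) := by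
    rw [mul_sub, ← ee_add]; simp
  rw [h, norm_mul, norm_ee, one_mul]
  exact norm_ee_sub_one_le _

lemma norm_ee_sub_one_le_two (x : ℝ) : ‖ee x - 1‖ ≤ 2 := by
  refine (norm_sub_le _ _).trans ?_
  rw [norm_ee]; norm_num

lemma four_mul_le_norm_ee_sub_one {s : ℝ} (hs : |s| ≤ 1 / 2) : 4 * |s| ≤ ‖ee s - 1‖ := by
  rw [norm_ee_sub_one]
  have hpi := Real.pi_pos
  have key : ∀ t : ℝ, 0 ≤ t → t ≤ 1 / 2 → 2 * t ≤ Real.sin (Real.pi * t) := by
    intro t ht0 ht1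
    have h := Real.mul_le_sin (x := Real.pi * t) (by positivity) (by nlinarith)
    have h2 : 2 / Real.pi * (Real.pi * t) = 2 * t := by field_simp
    linarith
  have h1 : |Real.sin (Real.pi * s)| = |Real.sin (Real.pi * |s|)| := by
    rcases abs_cases s with ⟨h, _⟩ | ⟨h, _⟩
    · rw [h]
    · rw [h, mul_neg, Real.sin_neg, abs_neg]
  rw [h1]
  have := key |s| (abs_nonneg s) hs
  have h3 := le_abs_self (Real.sin (Real.pi * |s|))
  linarith

/-- The geometric sum identity. -/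
lemma geom_sum_ee (s : ℝ) (A n : ℕ) :
    (ee s - 1) * ∑ i ∈ range n, ee (((A + i : ℕ) : ℝ) * s) = ee (A * s) * (ee (n * s) - 1) := by
  induction n with
  | zero => simp [ee_zero]
  | succ n ih =>
    rw [sum_range_succ, mul_add, ih]
    have h1 : ((A + n : ℕ) : ℝ) * s = A * s + n * s := by push_cast; ring
    have h2 : ((n + 1 : ℕ) : ℝ) * s = n * s + s := by push_cast; ring
    rw [h1, h2, ee_add, ee_add]
    ring

lemma norm_sum_ee_le {s : ℝ} (hs0 : s ≠ 0) (hs : |s| ≤ 1 / 2) (A n : ℕ) :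
    ‖∑ i ∈ range n, ee (((A + i : ℕ) : ℝ) * s)‖ ≤ ‖ee (n * s) - 1‖ / (4 * |s|) := by
  have h := geom_sum_ee s A n
  have h2 : ‖ee s - 1‖ * ‖∑ i ∈ range n, ee (((A + i : ℕ) : ℝ) * s)‖ = ‖ee (n * s) - 1‖ := by
    rw [← norm_mul, h, norm_mul, norm_ee, one_mul]
  have h4 := four_mul_le_norm_ee_sub_one hs
  have hpos : 0 < 4 * |s| := by have := abs_pos.mpr hs0; linarith
  rw [le_div_iff₀ hpos, ← h2, mul_comm]
  exact mul_le_mul_of_nonneg_right h4 (norm_nonneg _)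

/-- sums over a window ending at a near return -/
lemma norm_sum_ee_sub_le {s ρ : ℝ} (A n : ℕ) (h : ‖ee (((A + n : ℕ) : ℝ) * s) - 1‖ ≤ ρ) :
    ‖∑ i ∈ range n, ee (((A + i : ℕ) : ℝ) * s) - n‖ ≤ n * (ρ + 7 * (n * |s|)) := by
  have h0 : (∑ i ∈ range n, ee (((A + i : ℕ) : ℝ) * s) - n)
      = ∑ i ∈ range n, (ee (((A + i : ℕ) : ℝ) * s) - 1) := by
    rw [sum_sub_distrib]; simp
  rw [h0]
  refine (norm_sum_le _ _).trans ?_
  have : ∀ i ∈ range n, ‖ee (((A + i : ℕ) : ℝ) * s) - 1‖ ≤ ρ + 7 * (n * |s|) := by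
    intro i hi
    rw [mem_range] at hi
    have h1 : ‖ee (((A + i : ℕ) : ℝ) * s) - ee (((A + n : ℕ) : ℝ) * s)‖ ≤ 7 * (n * |s|) := by
      refine (norm_ee_sub_ee _ _).trans ?_
      have : ((A + i : ℕ) : ℝ) * s - ((A + n : ℕ) : ℝ) * s = ((i : ℝ) - n) * s := by
        push_cast; ring
      rw [this, abs_mul]
      have h2 : |(i : ℝ) - n| ≤ n := by
        rw [abs_le]
        have h3 : (i : ℝ) ≤ n := by exact_mod_cast hi.le
        have h4 : (0 : ℝ) ≤ i := by positivity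
        constructor <;> linarith
      have := mul_le_mul_of_nonneg_right h2 (abs_nonneg s)
      linarith
    calc ‖ee (((A + i : ℕ) : ℝ) * s) - 1‖
        = ‖(ee (((A + i : ℕ) : ℝ) * s) - ee (((A + n : ℕ) : ℝ) * s))
            + (ee (((A + n : ℕ) : ℝ) * s) - 1)‖ := by congr 1; ring
      _ ≤ _ := norm_add_le _ _
      _ ≤ _ := by linarith
  refine (sum_le_sum this).trans ?_
  rw [sum_const, card_range, nsmul_eq_mul]

lemma norm_sum_ee_sub_le' {s : ℝ} (n : ℕ) :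
    ‖∑ i ∈ range n, ee ((i : ℝ) * s) - n‖ ≤ n * (7 * (n * |s|)) := by
  have h0 : (∑ i ∈ range n, ee ((i : ℝ) * s) - n)
      = ∑ i ∈ range n, (ee ((i : ℝ) * s) - 1) := by
    rw [sum_sub_distrib]; simp
  rw [h0]
  refine (norm_sum_le _ _).trans ?_
  have : ∀ i ∈ range n, ‖ee ((i : ℝ) * s) - 1‖ ≤ 7 * (n * |s|) := by
    intro i hi
    rw [mem_range] at hi
    refine (norm_ee_sub_one_le _).trans ?_
    rw [abs_mul]
    have h3 : |(i : ℝ)| ≤ n := by
      rw [abs_of_nonneg (by positivity)]; exact_mod_cast hi.le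
    have := mul_le_mul_of_nonneg_right h3 (abs_nonneg s)
    linarith
  refine (sum_le_sum this).trans ?_
  simp

end Pool.Agent.Lib.MP_3d11e1_an
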