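import Pool.Agent.Lib.MP_3d11e1_an.Assembly

/-!
# No Besicovitch cylindrical transformations with a smooth cocycle
-/

namespace Pool.Agent.Lib.MP_3d11e1_an

open Finset UnitAddTorus Filter Topology

variable {d : ℕ}

lemma cyl_pow (α : Fin d → ℝ) (φ : UnitAddTorus (Fin d) → ℝ) (n : ℕ)
    (x : UnitAddTorus (Fin d)) (t : ℝ) :
    (cyl α φ ^ n) (x, t) = (x + n • proj α, t + birk α φ n x) := by
  induction n with
  | zero => simp [birk]
  | succ n ih =>
    rw [pow_succ', Equiv.Perm.mul_apply, ih]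
    unfold birk
    rw [sum_range_succ]
    simp only [cyl, Equiv.coe_fn_mk]
    refine Prod.ext ?_ ?_
    · simp only; rw [succ_nsmul, add_assoc]
    · simp only; ring

/-- The iterates of the cylindrical transformation. -/
theorem cyl_zpow (α : Fin d → ℝ) (φ : UnitAddTorus (Fin d) → ℝ) (n : ℤ)
    (x : UnitAddTorus (Fin d)) (t : ℝ) :
    (cyl α φ ^ n) (x, t) = (x + n • proj α, t + cocycle α φ n x) := by
  cases n with
  | ofNat n =>
    have := cyl_pow α φ n x t
    simpa [cocycle] using this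
  | negSucc n =>
    rw [zpow_negSucc, Equiv.Perm.inv_def, Equiv.symm_apply_eq, cyl_pow]
    simp only [cocycle]
    refine Prod.ext ?_ ?_
    · simp only [negSucc_zsmul]
      abel
    · simp only [negSucc_zsmul]
      rw [← sub_eq_add_neg x]
      ring

/-- If `|φ^(n)(x)| → ∞` then the orbits over `x` are not dense. -/
theorem DiscreteOver.not_dense {α : Fin d → ℝ} {φ : UnitAddTorus (Fin d) → ℝ}
    {x : UnitAddTorus (Fin d)} (h : DiscreteOver α φ x) (t : ℝ) :
    ¬ Dense (Set.range fun n : ℤ => (cyl α φ ^ n) (x, t)) := by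
  intro hd
  have h1 : ∀ᶠ n in cofinite, |t| + 1 < |cocycle α φ n x| :=
    h.eventually_gt_atTop (|t| + 1)
  rw [eventually_cofinite] at h1
  set S := {n : ℤ | ¬ |t| + 1 < |cocycle α φ n x|} with hS
  have hG : ((fun n : ℤ => t + cocycle α φ n x) '' S).Finite := h1.image _
  have hVne : (Set.Ioo (-1 : ℝ) 1 \ ((fun n : ℤ => t + cocycle α φ n x) '' S)).Nonempty :=
    ((Set.Ioo_infinite (by norm_num : (-1 : ℝ) < 1)).sdiff hG).nonempty
  have hVo : IsOpen (Set.Ioo (-1 : ℝ) 1 \ ((fun n : ℤ => t + cocycle α φ n x) '' S)) :=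
    isOpen_Ioo.sdiff hG.isClosed
  have hUo : IsOpen ((Prod.snd : UnitAddTorus (Fin d) × ℝ → ℝ) ⁻¹'
      (Set.Ioo (-1 : ℝ) 1 \ ((fun n : ℤ => t + cocycle α φ n x) '' S))) :=
    hVo.preimage continuous_snd
  obtain ⟨v, hv⟩ := hVne
  obtain ⟨y, hyU, hyO⟩ := hd.inter_open_nonempty _ hUo ⟨(x, v), hv⟩
  obtain ⟨n, rfl⟩ := hyO
  simp only at hyU
  rw [cyl_zpow] at hyU
  simp only [Set.mem_preimage, Set.mem_sdiff, Set.mem_Ioo] at hyU
  apply hyU.2
  refine ⟨n, ?_, rfl⟩
  intro hcon
  have h2 : |cocycle α φ n x| ≤ |t + cocycle α φ n x| + |t| := by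
    have : cocycle α φ n x = (t + cocycle α φ n x) + (-t) := by ring
    calc |cocycle α φ n x| = |(t + cocycle α φ n x) + (-t)| := by rw [← this]
      _ ≤ |t + cocycle α φ n x| + |-t| := abs_add_le _ _
      _ = _ := by rw [abs_neg]
  have h3 : |t + cocycle α φ n x| < 1 := abs_lt.mpr hyU.1
  linarith

/-- With nonzero mean the sums grow linearly, uniformly. -/
theorem linear_growth {r : ℕ} (hr : ∀ (f : UnitAddTorus (Fin d) → ℂ), Continuous f →
    ∀ k : ℕ, ContDiff ℝ (k + r : ℕ) (fun x : Fin d → ℝ => f (proj x)) →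
    Summable (fun n : Fin d → ℤ => ‖mFourierCoeff f n‖ * ‖n‖ ^ k))
    {α : Fin d → ℝ} {φ : UnitAddTorus (Fin d) → ℝ} (hα : MinimalRotation α)
    (hφ : IsCk (1 + r) φ) (hmean : mFourierCoeff (fun x => ((φ x : ℝ) : ℂ)) 0 ≠ 0) :
    ∃ ε : ℝ, 0 < ε ∧ ∃ C : ℝ, ∀ (m : ℕ) (x : UnitAddTorus (Fin d)),
      ε * m - C ≤ |birk α φ m x| := by
  set f : UnitAddTorus (Fin d) → ℂ := fun x => ((φ x : ℝ) : ℂ) with hf
  have hfc : Continuous f := Complex.continuous_ofReal.comp hφ.continuous
  have hfk : ContDiff ℝ (1 + r : ℕ) (fun y : Fin d → ℝ => f (proj y)) := isCk_complex hφ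
  have hw := hr f hfc 1 hfk
  have h0 : Summable (fun n : Fin d → ℤ => ‖mFourierCoeff f n‖) := by
    have := hr f hfc 0 (hfk.of_le (by exact_mod_cast (by omega : 0 + r ≤ 1 + r)))
    simpa using this
  set C := ∑' n : Fin d → ℤ, ‖mFourierCoeff f n‖ * ‖n‖ ^ 1 with hC
  set c0 := mFourierCoeff f 0 with hc0
  have hc0pos : 0 < ‖c0‖ := norm_pos_iff.mpr hmean
  obtain ⟨B, hB⟩ : ∃ B : ℕ, B = 1 + ⌈2 * C / ‖c0‖⌉₊ := ⟨_, rfl⟩
  have hB1 : 1 ≤ B := by omega
  have hB0 : (0 : ℝ) < B := by exact_mod_cast hB1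
  have hBC : C / (B : ℝ) ^ 1 ≤ ‖c0‖ / 2 := by
    have h1 := Nat.le_ceil (2 * C / ‖c0‖)
    have h2 : ((⌈2 * C / ‖c0‖⌉₊ : ℕ) : ℝ) ≤ B := by
      have : ⌈2 * C / ‖c0‖⌉₊ ≤ B := by omega
      exact_mod_cast this
    have h3 : 2 * C / ‖c0‖ ≤ B := h1.trans h2
    rw [div_le_iff₀ hc0pos] at h3
    rw [pow_one, div_le_div_iff₀ hB0 (by norm_num)]
    linarith
  refine ⟨‖c0‖ / 2, by positivity,
    ∑ n ∈ box d B, ‖mFourierCoeff f n‖ * (2 / ‖ee (dot n α) - 1‖), ?_⟩
  intro m x
  have hR : ∀ j ∈ range m, ‖f (x + j • proj α) - c0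
      - ∑ n ∈ box d B, (mFourierCoeff f n * mFourier n x) * ee (j * dot n α)‖ ≤ ‖c0‖ / 2 := by
    intro j _
    have h1 := expansion hfc h0 hw hB1 (x + j • proj α)
    have h2 : ∑ n ∈ box d B, mFourierCoeff f n * mFourier n (x + j • proj α)
        = ∑ n ∈ box d B, (mFourierCoeff f n * mFourier n x) * ee (j * dot n α) := by
      refine Finset.sum_congr rfl fun n _ => ?_
      rw [mFourier_orbit]; ring
    rw [h2] at h1
    exact h1.trans hBC
  have hsumR := (norm_sum_le (range m) (fun j => f (x + j • proj α) - c0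
      - ∑ n ∈ box d B, (mFourierCoeff f n * mFourier n x) * ee (j * dot n α))).trans
      (sum_le_sum hR)
  rw [sum_const, card_range, nsmul_eq_mul, sum_sub_distrib, sum_sub_distrib, sum_const,
    card_range, nsmul_eq_mul, sum_comm] at hsumR
  have hmodes : ‖∑ n ∈ box d B, ∑ j ∈ range m,
      (mFourierCoeff f n * mFourier n x) * ee (j * dot n α)‖
      ≤ ∑ n ∈ box d B, ‖mFourierCoeff f n‖ * (2 / ‖ee (dot n α) - 1‖) := by
    refine (norm_sum_le _ _).trans (sum_le_sum fun n hn => ?_)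
    rw [← mul_sum, norm_mul, norm_mul, norm_mFourier_apply, mul_one]
    refine mul_le_mul_of_nonneg_left ?_ (norm_nonneg _)
    have h1 := geom_sum_ee (dot n α) 0 m
    simp only [zero_add, Nat.cast_zero, zero_mul, ee_zero, one_mul] at h1
    rw [mem_box] at hn
    have h2 : 0 < ‖ee (dot n α) - 1‖ := by
      rw [norm_pos_iff, sub_ne_zero]
      intro h3
      have h4 : ‖ee (dot n α) - 1‖ = 0 := by rw [h3]; simp
      rw [norm_ee_sub_one] at h4
      have h5 : Real.sin (Real.pi * dot n α) = 0 := by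
        have : |Real.sin (Real.pi * dot n α)| = 0 := by linarith
        exact abs_eq_zero.mp this
      rw [Real.sin_eq_zero_iff] at h5
      obtain ⟨l, hl⟩ := h5
      have h6 : dot n α = l := by
        have hpi := Real.pi_pos
        have : Real.pi * dot n α = Real.pi * l := by linarith
        exact mul_left_cancel₀ hpi.ne' this
      exact hα.irr hn.1 l h6
    rw [le_div_iff₀ h2, mul_comm, ← norm_mul, h1]
    exact norm_ee_sub_one_le_two _
  have hbirk : ((birk α φ m x : ℝ) : ℂ) = ∑ j ∈ range m, f (x + j • proj α) := by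
    unfold birk
    push_cast
    rfl
  have hnb : |birk α φ m x| = ‖∑ j ∈ range m, f (x + j • proj α)‖ := by
    rw [← hbirk, Complex.norm_real, Real.norm_eq_abs]
  rw [hnb]
  set F := ∑ j ∈ range m, f (x + j • proj α) with hF
  set G := ∑ n ∈ box d B, ∑ j ∈ range m,
      (mFourierCoeff f n * mFourier n x) * ee (j * dot n α) with hG
  have h7 : ‖(m : ℂ) * c0‖ ≤ ‖F‖ + ‖G‖ + ‖F - (m : ℂ) * c0 - G‖ := by
    have : (m : ℂ) * c0 = F - G - (F - (m : ℂ) * c0 - G) := by ring
    calc ‖(m : ℂ) * c0‖ = ‖F - G - (F - (m : ℂ) * c0 - G)‖ := by rw [← this]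
      _ ≤ ‖F - G‖ + ‖F - (m : ℂ) * c0 - G‖ := norm_sub_le _ _
      _ ≤ _ := by gcongr; exact norm_sub_le _ _
  rw [norm_mul, Complex.norm_natCast] at h7
  linarith

theorem discrete_of_mean_ne_zero {r : ℕ} (hr : ∀ (f : UnitAddTorus (Fin d) → ℂ), Continuous f →
    ∀ k : ℕ, ContDiff ℝ (k + r : ℕ) (fun x : Fin d → ℝ => f (proj x)) →
    Summable (fun n : Fin d → ℤ => ‖mFourierCoeff f n‖ * ‖n‖ ^ k))
    {α : Fin d → ℝ} {φ : UnitAddTorus (Fin d) → ℝ} (hα : MinimalRotation α)
    (hφ : IsCk (1 + r) φ) (hmean : mFourierCoeff (fun x => ((φ x : ℝ) : ℂ)) 0 ≠ 0)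
    (x : UnitAddTorus (Fin d)) : DiscreteOver α φ x := by
  obtain ⟨ε, hε, C, hC⟩ := linear_growth hr hα hφ hmean
  have h1 : ∀ n : ℤ, ε * |(n : ℝ)| - C ≤ |cocycle α φ n x| := by
    intro n
    cases n with
    | ofNat n =>
      have := hC n x
      simpa [cocycle] using this
    | negSucc n =>
      have := hC (n + 1) (x - (n + 1) • proj α)
      simp only [cocycle, abs_neg]
      have h2 : |((Int.negSucc n : ℤ) : ℝ)| = ((n + 1 : ℕ) : ℝ) := by
        rw [Int.cast_negSucc, abs_neg, abs_of_nonneg (by positivity)]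
      rw [h2]
      exact this
  unfold DiscreteOver
  refine tendsto_atTop_mono h1 ?_
  have h2 : Tendsto (fun n : ℤ => |(n : ℝ)|) cofinite atTop := by
    have h3 := tendsto_norm_cocompact_atTop (E := ℝ)
    have h4 := Int.tendsto_coe_cofinite
    exact h3.comp h4
  exact tendsto_atTop_add_const_right _ _ (h2.const_mul_atTop hε)

theorem not_discrete_of_mean_zero {k : ℕ}
    (hk : ∀ (α : Fin d → ℝ) (φ : UnitAddTorus (Fin d) → ℝ),
    MinimalRotation α → IsCk k φ → mFourierCoeff (fun x => ((φ x : ℝ) : ℂ)) 0 = 0 →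
    ∀ (x : UnitAddTorus (Fin d)) (N : ℕ), ¬ ∀ m, N ≤ m → 2 ≤ birk α φ m x)
    {α : Fin d → ℝ} {φ : UnitAddTorus (Fin d) → ℝ} (hα : MinimalRotation α)
    (hφ : IsCk k φ) (hmean : mFourierCoeff (fun x => ((φ x : ℝ) : ℂ)) 0 = 0)
    (x : UnitAddTorus (Fin d)) : ¬ DiscreteOver α φ x := by
  intro hdisc
  have h1 : Tendsto (fun m : ℕ => |birk α φ m x|) atTop atTop := by
    have h2 : Tendsto (fun m : ℕ => (m : ℤ)) atTop cofinite := by
      rw [← Nat.cofinite_eq_atTop]
      exact Nat.cast_injective.tendsto_cofinite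
    exact Tendsto.comp hdisc h2
  obtain ⟨M, hM⟩ := isCompact_univ.exists_bound_of_continuousOn hφ.continuous.continuousOn
  have hM' : ∀ y, |φ y| ≤ M := fun y => hM y (Set.mem_univ y)
  obtain ⟨N, hN⟩ := eventually_atTop.mp (h1.eventually_ge_atTop (M + 2))
  have hM0 : 0 ≤ M := (abs_nonneg _).trans (hM' 0)
  have hstep : ∀ m, birk α φ (m + 1) x = birk α φ m x + φ (x + m • proj α) := by
    intro m; unfold birk; rw [sum_range_succ]
  rcases le_or_gt 0 (birk α φ N x) with hpos | hneg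
  · -- eventually large positive
    refine hk α φ hα hφ hmean x N ?_
    have key : ∀ m, N ≤ m → M + 2 ≤ birk α φ m x := by
      intro m hm
      induction m, hm using Nat.le_induction with
      | base =>
        have := hN N (le_refl _)
        rwa [abs_of_nonneg hpos] at this
      | succ m hm ih =>
        have h3 := hN (m + 1) (by omega)
        have h4 := (abs_le.mp (hM' (x + m • proj α))).1
        have h5 : 0 ≤ birk α φ (m + 1) x := by rw [hstep]; linarith
        rwa [abs_of_nonneg h5] at h3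
    intro m hm
    have := key m hm
    linarith
  · -- eventually large negative
    have hφ' : IsCk k (fun y => - φ y) := ContDiff.neg hφ
    have hmean' : mFourierCoeff (fun x => (((- φ x : ℝ)) : ℂ)) 0 = 0 := by
      have h3 : (fun x => (((- φ x : ℝ)) : ℂ)) = fun x => (-1 : ℂ) * ((φ x : ℝ) : ℂ) := by
        funext y; push_cast; ring
      rw [h3]
      unfold mFourierCoeff at hmean ⊢
      have h4 : ∀ t : UnitAddTorus (Fin d), mFourier (-0) t • ((-1 : ℂ) * ((φ t : ℝ) : ℂ))
          = (-1 : ℂ) * (mFourier (-0) t • ((φ t : ℝ) : ℂ)) := by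
        intro t; simp
      simp_rw [h4]
      rw [MeasureTheory.integral_const_mul, hmean, mul_zero]
    refine hk α (fun y => - φ y) hα hφ' hmean' x N ?_
    have key : ∀ m, N ≤ m → birk α φ m x ≤ -(M + 2) := by
      intro m hm
      induction m, hm using Nat.le_induction with
      | base =>
        have := hN N (le_refl _)
        rw [abs_of_neg hneg] at this
        linarith
      | succ m hm ih =>
        have h3 := hN (m + 1) (by omega)
        have h4 := (abs_le.mp (hM' (x + m • proj α))).2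
        have h5 : birk α φ (m + 1) x < 0 := by rw [hstep]; linarith
        rw [abs_of_neg h5] at h3
        linarith
    intro m hm
    have h6 := key m hm
    have h7 : birk α (fun y => - φ y) m x = - birk α φ m x := by
      unfold birk; rw [sum_neg_distrib]
    rw [h7]
    linarith

/-- There is a finite degree of smoothness, depending only on the dimension, which excludes
Besicovitch cylindrical transformations over minimal rotations. -/
theorem no_besicovitch (d : ℕ) : ∃ k : ℕ, ∀ (α : Fin d → ℝ) (φ : UnitAddTorus (Fin d) → ℝ),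
    MinimalRotation α → IsCk k φ → ¬ Besicovitch α φ := by
  obtain ⟨k, hk⟩ := zero_mean d
  obtain ⟨r, hr⟩ := summable_coeff d
  refine ⟨max k (1 + r), ?_⟩
  intro α φ hα hφ hB
  obtain ⟨⟨⟨y, t⟩, hdense⟩, x, hx⟩ := hB
  have hφk : IsCk k φ := ContDiff.of_le hφ (by exact_mod_cast le_max_left _ _)
  have hφr : IsCk (1 + r) φ := ContDiff.of_le hφ (by exact_mod_cast le_max_right _ _)
  by_cases hmean : mFourierCoeff (fun x => ((φ x : ℝ) : ℂ)) 0 = 0
  · exact not_discrete_of_mean_zero hk hα hφk hmean x hx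
  · exact (discrete_of_mean_ne_zero hr hα hφr hmean y).not_dense t hdense

end Pool.Agent.Lib.MP_3d11e1_an
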