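import Pool.Agent.Lib.MP_3d11e1_an.Defs

/-!
# Rapid decay of the Fourier coefficients of smooth functions on the torus
-/

namespace Pool.Agent.Lib.MP_3d11e1_an

open Finset MeasureTheory UnitAddTorus Function
open scoped ContDiff

noncomputable local instance : MeasureSpace UnitAddCircle := ⟨AddCircle.haarAddCircle⟩

local instance : Measure.IsAddHaarMeasure (volume : Measure UnitAddCircle) :=
  inferInstanceAs (Measure.IsAddHaarMeasure AddCircle.haarAddCircle)

local instance : IsProbabilityMeasure (volume : Measure UnitAddCircle) :=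
  inferInstanceAs (IsProbabilityMeasure AddCircle.haarAddCircle)

variable {d : ℕ}

lemma proj_add (x y : Fin d → ℝ) : proj (x + y) = proj x + proj y := by
  ext i; simp [proj]

lemma proj_surjective : Function.Surjective (proj (d := d)) := by
  intro x
  have : ∀ i, ∃ y : ℝ, (y : UnitAddCircle) = x i := fun i => QuotientAddGroup.mk_surjective (x i)
  choose y hy using this
  exact ⟨y, funext hy⟩

lemma proj_int (m : Fin d → ℤ) : proj (fun i => (m i : ℝ)) = 0 := by
  ext i
  simp only [proj, Pi.zero_apply]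
  rw [AddCircle.coe_eq_zero_iff]
  exact ⟨m i, by simp⟩

lemma mFourier_add_arg (n : Fin d → ℤ) (x y : UnitAddTorus (Fin d)) :
    mFourier n (x + y) = mFourier n x * mFourier n y := by
  simp only [mFourier, ContinuousMap.coe_mk, Pi.add_apply, ← Finset.prod_mul_distrib]
  refine Finset.prod_congr rfl fun i _ => ?_
  simp only [fourier_apply, zsmul_add, AddCircle.toCircle_add, Circle.coe_mul]

lemma norm_mFourier_apply (n : Fin d → ℤ) (x : UnitAddTorus (Fin d)) : ‖mFourier n x‖ = 1 := by
  simp only [mFourier, fourier_apply, ContinuousMap.coe_mk, norm_prod, Circle.norm_coe,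
      Finset.prod_const_one]

lemma mFourierCoeff_translate (f : UnitAddTorus (Fin d) → ℂ) (v : UnitAddTorus (Fin d))
    (n : Fin d → ℤ) :
    mFourierCoeff (fun x => f (x + v)) n = mFourier n v * mFourierCoeff f n := by
  unfold mFourierCoeff
  have h1 : ∀ t : UnitAddTorus (Fin d), mFourier (-n) t • f (t + v)
      = mFourier n v * (mFourier (-n) (t + v) • f (t + v)) := by
    intro t
    rw [mFourier_add_arg, smul_eq_mul, smul_eq_mul]
    have h2 : mFourier n v * mFourier (-n) v = 1 := by
      rw [← mFourier_add, add_neg_cancel, mFourier_zero]; rfl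
    calc mFourier (-n) t * f (t + v) = 1 * (mFourier (-n) t * f (t + v)) := by ring
      _ = (mFourier n v * mFourier (-n) v) * (mFourier (-n) t * f (t + v)) := by rw [h2]
      _ = _ := by ring
  simp_rw [h1]
  rw [integral_const_mul]
  congr 1
  exact integral_add_right_eq_self (fun t => mFourier (-n) t • f t) v

lemma integrable_of_continuous {f : UnitAddTorus (Fin d) → ℂ} (hf : Continuous f) :
    Integrable f := by
  have : CompactSpace (UnitAddTorus (Fin d)) := inferInstance
  exact hf.integrable_of_hasCompactSupport (HasCompactSupport.of_compactSpace f)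

lemma mFourierCoeff_fwdDiff {f : UnitAddTorus (Fin d) → ℂ} (hf : Continuous f)
    (v : UnitAddTorus (Fin d)) (n : Fin d → ℤ) :
    mFourierCoeff (fwdDiff v f) n = (mFourier n v - 1) * mFourierCoeff f n := by
  have h0 := mFourierCoeff_translate f v n
  rw [sub_mul, ← h0, one_mul]
  unfold mFourierCoeff
  rw [← integral_sub]
  · congr 1
    ext t
    simp only [fwdDiff, smul_eq_mul, mul_sub]
  · apply integrable_of_continuous
    fun_prop
  · apply integrable_of_continuous
    fun_prop

lemma continuous_fwdDiff {f : UnitAddTorus (Fin d) → ℂ} (hf : Continuous f)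
    (v : UnitAddTorus (Fin d)) : Continuous (fwdDiff v f) := by
  unfold fwdDiff
  fun_prop

lemma continuous_fwdDiff_iterate {f : UnitAddTorus (Fin d) → ℂ} (hf : Continuous f)
    (v : UnitAddTorus (Fin d)) (k : ℕ) : Continuous ((fwdDiff v)^[k] f) := by
  induction k with
  | zero => simpa using hf
  | succ k ih => rw [iterate_succ_apply']; exact continuous_fwdDiff ih v

lemma mFourierCoeff_fwdDiff_iterate {f : UnitAddTorus (Fin d) → ℂ} (hf : Continuous f)
    (v : UnitAddTorus (Fin d)) (n : Fin d → ℤ) (k : ℕ) :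
    mFourierCoeff ((fwdDiff v)^[k] f) n = (mFourier n v - 1) ^ k * mFourierCoeff f n := by
  induction k with
  | zero => simp
  | succ k ih =>
    rw [iterate_succ_apply', mFourierCoeff_fwdDiff (continuous_fwdDiff_iterate hf v k), ih]
    ring

lemma norm_mFourierCoeff_le {f : UnitAddTorus (Fin d) → ℂ} {C : ℝ} (hC : ∀ x, ‖f x‖ ≤ C)
    (n : Fin d → ℤ) : ‖mFourierCoeff f n‖ ≤ C := by
  unfold mFourierCoeff
  refine (norm_integral_le_of_norm_le_const (C := C) ?_).trans ?_
  · refine Filter.Eventually.of_forall fun t => ?_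
    rw [norm_smul, norm_mFourier_apply, one_mul]
    exact hC t
  · simp

/-- Periodicity under the integer lattice. -/
def Periodic' (f : (Fin d → ℝ) → ℂ) : Prop :=
  ∀ (x : Fin d → ℝ) (m : Fin d → ℤ), f (x + fun i => (m i : ℝ)) = f x

lemma Periodic'.bounded {f : (Fin d → ℝ) → ℂ} (hp : Periodic' f) (hf : Continuous f) :
    ∃ C : ℝ, ∀ x, ‖f x‖ ≤ C := by
  have hK : IsCompact (Set.Icc (0 : Fin d → ℝ) 1) := isCompact_Icc
  obtain ⟨C, hC⟩ := hK.exists_bound_of_continuousOn hf.continuousOn
  refine ⟨C, fun x => ?_⟩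
  have h1 := hp x (fun i => -⌊x i⌋)
  rw [← h1]
  apply hC
  rw [Set.mem_Icc, Pi.le_def, Pi.le_def]
  constructor
  · intro i
    have := Int.floor_le (x i)
    simp only [Pi.zero_apply, Pi.add_apply, Int.cast_neg]
    linarith
  · intro i
    have := Int.lt_floor_add_one (x i)
    simp only [Pi.one_apply, Pi.add_apply, Int.cast_neg]
    linarith

lemma Periodic'.fderiv_apply {f : (Fin d → ℝ) → ℂ} (hp : Periodic' f) (v : Fin d → ℝ) :
    Periodic' (fun y => fderiv ℝ f y v) := by
  intro x m
  have h1 : (fun y => f (y + fun i => (m i : ℝ))) = f := funext fun y => hp y m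
  have h2 := fderiv_comp_add_right (𝕜 := ℝ) (f := f) (x := x) (fun i => (m i : ℝ))
  rw [h1] at h2
  simp only
  rw [← h2]

lemma contDiff_fderiv_apply {f : (Fin d → ℝ) → ℂ} {k : ℕ} (hf : ContDiff ℝ (k + 1 : ℕ) f)
    (v : Fin d → ℝ) : ContDiff ℝ k (fun y => fderiv ℝ f y v) := by
  have h1 : ContDiff ℝ k (fderiv ℝ f) := hf.fderiv_right (by push_cast; exact le_refl _)
  exact h1.clm_apply contDiff_const

lemma hasDerivAt_fwdDiff_iterate {f : (Fin d → ℝ) → ℂ} (hf : Differentiable ℝ f)
    (v w : Fin d → ℝ) (k : ℕ) : ∀ (x : Fin d → ℝ) (t : ℝ),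
    HasDerivAt (fun t : ℝ => ((fwdDiff w)^[k] f) (x + t • v))
      (((fwdDiff w)^[k] (fun y => fderiv ℝ f y v)) (x + t • v)) t := by
  induction k with
  | zero =>
    intro x t
    simp only [iterate_zero, id_eq]
    have h1 : HasDerivAt (fun t : ℝ => x + t • v) v t := by
      have := ((hasDerivAt_id t).smul_const v).const_add x
      simpa using this
    exact (hf (x + t • v)).hasFDerivAt.comp_hasDerivAt t h1
  | succ k ih =>
    intro x t
    have h1 := ih (x + w) t
    have h2 := ih x t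
    have h3 := h1.sub h2
    rw [iterate_succ_apply', iterate_succ_apply']
    have e1 : ∀ t : ℝ, x + w + t • v = x + t • v + w := fun t => by abel
    simp only [e1] at h3
    exact h3

lemma fwdDiff_iterate_bound (i : Fin d) : ∀ (k : ℕ) (f : (Fin d → ℝ) → ℂ), ContDiff ℝ k f →
    Periodic' f → ∃ C : ℝ, 0 ≤ C ∧ ∀ (h : ℝ) (x : Fin d → ℝ),
      ‖((fwdDiff (Pi.single i h))^[k] f) x‖ ≤ C * |h| ^ k := by
  intro k
  induction k with
  | zero =>
    intro f hf hp
    obtain ⟨C, hC⟩ := hp.bounded hf.continuous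
    exact ⟨C, (norm_nonneg _).trans (hC 0), fun h x => by simpa using hC x⟩
  | succ k ih =>
    intro f hf hp
    obtain ⟨C, hC0, hC⟩ := ih _ (contDiff_fderiv_apply hf (Pi.single i 1))
      (hp.fderiv_apply (Pi.single i 1))
    refine ⟨C, hC0, fun h x => ?_⟩
    rw [iterate_succ_apply']
    have hd := hasDerivAt_fwdDiff_iterate (hf.differentiable (by
      exact_mod_cast (Nat.succ_ne_zero k))) (Pi.single i h)
      (Pi.single i h) k x
    have e0 : (fun y => fderiv ℝ f y (Pi.single i h))
        = fun y => (h : ℂ) * fderiv ℝ f y (Pi.single i 1) := by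
      funext y
      have : (Pi.single i h : Fin d → ℝ) = h • Pi.single i 1 := by
        rw [← Pi.single_smul]; simp
      rw [this, map_smul]
      simp
    have e1 : ∀ y, ((fwdDiff (Pi.single i h))^[k] (fun y => fderiv ℝ f y (Pi.single i h))) y
        = (h : ℂ) * ((fwdDiff (Pi.single i h))^[k] (fun y => fderiv ℝ f y (Pi.single i 1))) y := by
      rw [e0]
      have : (fun y => (h : ℂ) * fderiv ℝ f y (Pi.single i 1))
          = (h : ℂ) • (fun y => fderiv ℝ f y (Pi.single i 1)) := by
        funext y; simp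
      rw [this, fwdDiff_iter_const_smul]
      intro y; simp
    have hb := norm_image_sub_le_of_norm_deriv_le_segment_01' (f := fun t : ℝ =>
      ((fwdDiff (Pi.single i h))^[k] f) (x + t • (Pi.single i h : Fin d → ℝ)))
      (f' := fun t => ((fwdDiff (Pi.single i h))^[k]
        (fun y => fderiv ℝ f y (Pi.single i h))) (x + t • (Pi.single i h : Fin d → ℝ)))
      (C := |h| * (C * |h| ^ k)) (fun t _ => (hd t).hasDerivWithinAt) (by
        intro t _
        rw [e1, norm_mul]
        have : ‖(h : ℂ)‖ = |h| := by simp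
        rw [this]
        exact mul_le_mul_of_nonneg_left (hC h _) (abs_nonneg h))
    simp only [one_smul, zero_smul, add_zero] at hb
    calc _ ≤ |h| * (C * |h| ^ k) := hb
      _ = C * |h| ^ (k + 1) := by ring

lemma fwdDiff_iterate_proj (f : UnitAddTorus (Fin d) → ℂ) (v : Fin d → ℝ) (k : ℕ) :
    ∀ x, ((fwdDiff (proj v))^[k] f) (proj x) = ((fwdDiff v)^[k] (fun y => f (proj y))) x := by
  induction k with
  | zero => intro x; simp
  | succ k ih =>
    intro x
    rw [iterate_succ_apply', iterate_succ_apply']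
    simp only [fwdDiff]
    rw [← proj_add, ih, ih]

lemma mFourier_half (n : Fin d → ℤ) (i : Fin d) (hi : n i ≠ 0) :
    mFourier n (proj (Pi.single i (1 / (2 * (n i : ℝ))))) = -1 := by
  simp only [mFourier, ContinuousMap.coe_mk, proj]
  rw [Finset.prod_eq_single i]
  · rw [Pi.single_eq_same, fourier_coe_apply]
    have h1 : (2 * (Real.pi : ℂ) * Complex.I * (n i : ℂ) * ((1 / (2 * (n i : ℝ)) : ℝ) : ℂ)
        / ((1 : ℝ) : ℂ)) = Real.pi * Complex.I := by
      have h2 : (n i : ℂ) ≠ 0 := by exact_mod_cast hi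
      push_cast
      field_simp
    rw [h1, Complex.exp_pi_mul_I]
  · intro j _ hj
    rw [Pi.single_eq_of_ne hj]
    simp
  · intro h; exact absurd (mem_univ i) h

/-- Decay of the Fourier coefficients. -/
theorem coeff_decay {f : UnitAddTorus (Fin d) → ℂ} (hfc : Continuous f) {k : ℕ}
    (hf : ContDiff ℝ k (fun x : Fin d → ℝ => f (proj x))) :
    ∃ C : ℝ, 0 ≤ C ∧ ∀ n : Fin d → ℤ, n ≠ 0 → ‖mFourierCoeff f n‖ * ‖n‖ ^ k ≤ C := by
  have hp : Periodic' (fun x : Fin d → ℝ => f (proj x)) := by
    intro x m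
    simp only
    rw [proj_add, proj_int, add_zero]
  choose C hC0 hC using fun i => fwdDiff_iterate_bound i k _ hf hp
  refine ⟨∑ i, C i, sum_nonneg fun i _ => hC0 i, ?_⟩
  intro n hn
  -- the largest coordinate
  have hne : (univ : Finset (Fin d)).Nonempty := by
    by_contra hcon
    rw [Finset.not_nonempty_iff_eq_empty] at hcon
    apply hn
    ext i
    have := mem_univ i
    rw [hcon] at this
    exact absurd this (notMem_empty i)
  obtain ⟨i, _, hi⟩ := Finset.exists_max_image univ (fun i => ‖n i‖) hne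
  have hnorm : ‖n‖ = ‖n i‖ := by
    apply le_antisymm
    · rw [pi_norm_le_iff_of_nonneg (norm_nonneg _)]
      exact fun j => hi j (mem_univ j)
    · exact norm_le_pi_norm n i
  have hni : n i ≠ 0 := by
    intro h0
    apply hn
    rw [← norm_eq_zero, hnorm, h0, norm_zero]
  have h1 := mFourierCoeff_fwdDiff_iterate hfc (proj (Pi.single i (1 / (2 * (n i : ℝ))))) n k
  rw [mFourier_half n i hni] at h1
  have h2 : ‖mFourierCoeff ((fwdDiff (proj (Pi.single i (1 / (2 * (n i : ℝ))))))^[k] f) n‖
      ≤ C i * |1 / (2 * (n i : ℝ))| ^ k := by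
    apply norm_mFourierCoeff_le
    intro x
    obtain ⟨y, rfl⟩ := proj_surjective x
    rw [fwdDiff_iterate_proj]
    exact hC i _ y
  rw [h1, norm_mul, norm_pow] at h2
  have h3 : ‖(-1 - 1 : ℂ)‖ = 2 := by norm_num
  rw [h3, abs_div, abs_one, abs_mul, abs_two] at h2
  have h4 : ‖n‖ = |(n i : ℝ)| := by rw [hnorm, Int.norm_eq_abs]
  rw [h4]
  have h5 : (0 : ℝ) < |(n i : ℝ)| := abs_pos.mpr (by exact_mod_cast hni)
  have h6 : ‖mFourierCoeff f n‖ * |(n i : ℝ)| ^ k ≤ C i := by
    have h7 : (2 : ℝ) ^ k * ‖mFourierCoeff f n‖ * (2 * |(n i : ℝ)|) ^ k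
        ≤ C i * (1 / (2 * |(n i : ℝ)|)) ^ k * (2 * |(n i : ℝ)|) ^ k :=
      mul_le_mul_of_nonneg_right h2 (by positivity)
    have h8 : C i * (1 / (2 * |(n i : ℝ)|)) ^ k * (2 * |(n i : ℝ)|) ^ k = C i := by
      rw [mul_assoc, ← mul_pow, one_div_mul_cancel (by positivity), one_pow, mul_one]
    rw [h8, mul_pow] at h7
    have h9 : ‖mFourierCoeff f n‖ * |(n i : ℝ)| ^ k
        ≤ (2 : ℝ) ^ k * ‖mFourierCoeff f n‖ * (2 ^ k * |(n i : ℝ)| ^ k) := by
      have h10 : (1 : ℝ) ≤ 2 ^ k := one_le_pow₀ (by norm_num)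
      have h11 : (1 : ℝ) ≤ 2 ^ k * 2 ^ k := by nlinarith
      have h12 : 0 ≤ ‖mFourierCoeff f n‖ * |(n i : ℝ)| ^ k := by positivity
      calc ‖mFourierCoeff f n‖ * |(n i : ℝ)| ^ k
          = 1 * (‖mFourierCoeff f n‖ * |(n i : ℝ)| ^ k) := by ring
        _ ≤ (2 ^ k * 2 ^ k) * (‖mFourierCoeff f n‖ * |(n i : ℝ)| ^ k) := by gcongr
        _ = _ := by ring
    linarith
  exact h6.trans (single_le_sum (f := C) (fun i _ => hC0 i) (mem_univ i))

/-- Summability of a large negative power of the norm over the lattice. -/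
theorem summable_lattice (d : ℕ) : ∃ r : ℕ, Summable (fun n : Fin d → ℤ => (‖n‖ ^ r)⁻¹) := by
  let L : Submodule ℤ (Fin d → ℝ) := Submodule.span ℤ (Set.range (Pi.basisFun ℝ (Fin d)))
  refine ⟨Module.finrank ℤ L + 1, ?_⟩
  have h := ZLattice.summable_norm_pow_inv L (Module.finrank ℤ L + 1) (Nat.lt_succ_self _)
  have hmem : ∀ n : Fin d → ℤ, (fun i => (n i : ℝ)) ∈ L := by
    intro n
    have : (fun i => (n i : ℝ)) = ∑ i, n i • (Pi.basisFun ℝ (Fin d) i) := by
      ext j
      simp [Pi.basisFun_apply, Finset.sum_apply, Pi.single_apply]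
    rw [this]
    exact Submodule.sum_mem _ fun i _ =>
      Submodule.smul_mem _ _ (Submodule.subset_span (Set.mem_range_self i))
  let φ : (Fin d → ℤ) → L := fun n => ⟨fun i => (n i : ℝ), hmem n⟩
  have hinj : Function.Injective φ := by
    intro m n hmn
    have := congrArg Subtype.val hmn
    ext i
    have := congrFun this i
    simpa [φ] using this
  have h2 := h.comp_injective hinj
  refine h2.congr fun n => ?_
  simp only [Function.comp, φ]
  have h3 : ‖(⟨fun i => (n i : ℝ), hmem n⟩ : L)‖ = ‖n‖ := by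
    rw [Submodule.coe_norm]
    apply le_antisymm
    · rw [pi_norm_le_iff_of_nonneg (norm_nonneg _)]
      intro i
      have := norm_le_pi_norm n i
      rwa [Int.norm_eq_abs, ← Real.norm_eq_abs] at this
    · rw [pi_norm_le_iff_of_nonneg (norm_nonneg _)]
      intro i
      have := norm_le_pi_norm (fun i => (n i : ℝ)) i
      rwa [Real.norm_eq_abs, ← Int.norm_eq_abs] at this
  rw [h3, inv_pow]

/-- The weighted Fourier coefficients are summable. -/
theorem summable_coeff (d : ℕ) : ∃ r : ℕ, ∀ (f : UnitAddTorus (Fin d) → ℂ), Continuous f →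
    ∀ k : ℕ, ContDiff ℝ (k + r : ℕ) (fun x : Fin d → ℝ => f (proj x)) →
    Summable (fun n : Fin d → ℤ => ‖mFourierCoeff f n‖ * ‖n‖ ^ k) := by
  obtain ⟨r, hr⟩ := summable_lattice d
  refine ⟨r, fun f hfc k hf => ?_⟩
  obtain ⟨C, hC0, hC⟩ := coeff_decay hfc hf
  have h1 : Summable (fun n : Fin d → ℤ => C * (‖n‖ ^ r)⁻¹ + if n = 0 then
      ‖mFourierCoeff f n‖ * ‖n‖ ^ k else 0) := by
    refine (hr.mul_left C).add ?_
    refine summable_of_ne_finset_zero (s := {0}) ?_
    intro n hn
    rw [if_neg (by simpa using hn)]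
  refine Summable.of_nonneg_of_le (fun n => by positivity) (fun n => ?_) h1
  by_cases hn : n = 0
  · rw [if_pos hn]
    have : 0 ≤ C * (‖n‖ ^ r)⁻¹ := by positivity
    linarith
  · rw [if_neg hn, add_zero]
    have h2 := hC n hn
    have h3 : 0 < ‖n‖ ^ r := pow_pos (norm_pos_iff.mpr hn) r
    rw [← div_eq_mul_inv, le_div_iff₀ h3]
    rw [pow_add] at h2
    linarith

end Pool.Agent.Lib.MP_3d11e1_an
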