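import Pool.Agent.Lib.MP_3d11e1_an.Step

/-!
# Induction over the clusters of frequencies
-/

namespace Pool.Agent.Lib.MP_3d11e1_an

open Finset

namespace Modes

variable {d : ℕ} (X : Modes d)

/-- Chains of well separated frequencies. -/
def Chain (g : ℕ) : ℕ → ℝ → Prop
  | 0, _ => True
  | m + 1, θ => ∃ q ∈ X.Q, |X.s q| ≤ θ ∧ Chain g m (|X.s q| / (X.B : ℝ) ^ g)

lemma Chain.mono {X : Modes d} {g : ℕ} : ∀ {m : ℕ} {θ θ' : ℝ}, θ ≤ θ' →
    X.Chain g m θ → X.Chain g m θ'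
  | 0, _, _, _, _ => trivial
  | _ + 1, _, _, h, ⟨q, hq, h1, h2⟩ => ⟨q, hq, h1.trans h, h2⟩

theorem gap (d g : ℕ) (f : ℕ → ℕ) (hf : ∀ e, e ≤ f e) : ∀ m e0 : ℕ, ∃ M : ℕ,
    ∀ (X : Modes d) (E : ℝ), 0 < E → ¬ X.Chain g m (E / (X.B : ℝ) ^ e0) →
    ∃ e, e0 ≤ e ∧ e ≤ M ∧ ∀ q ∈ X.Q, E / (X.B : ℝ) ^ (f e) < |X.s q| →
      E / (X.B : ℝ) ^ e ≤ |X.s q| := by
  intro m
  induction m with
  | zero => intro e0; exact ⟨0, fun X E _ h => (h trivial).elim⟩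
  | succ m ih =>
    intro e0
    obtain ⟨M, hM⟩ := ih (f e0 + g)
    refine ⟨max e0 M, ?_⟩
    intro X E hE hch
    have hb0 := X.b_pos
    by_cases hc : ∀ q ∈ X.Q, E / (X.B : ℝ) ^ (f e0) < |X.s q| → E / (X.B : ℝ) ^ e0 ≤ |X.s q|
    · exact ⟨e0, le_refl _, le_max_left _ _, hc⟩
    · push Not at hc
      obtain ⟨q, hq, h1, h2⟩ := hc
      have h3 : ¬ X.Chain g m (|X.s q| / (X.B : ℝ) ^ g) := fun h4 => hch ⟨q, hq, h2.le, h4⟩
      have h4 : ¬ X.Chain g m (E / (X.B : ℝ) ^ (f e0 + g)) := by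
        intro h5
        refine h3 (h5.mono ?_)
        rw [pow_add, ← div_div]
        gcongr
      obtain ⟨e, he1, he2, he3⟩ := hM X E hE h4
      exact ⟨e, by have := hf e0; omega, he2.trans (le_max_right _ _), he3⟩

theorem main (d g : ℕ) : ∀ m c : ℕ, ∃ H : ℕ, ∀ (X : Modes d) (θ : ℝ), 0 < θ →
    (∀ q ∈ X.Q, θ < |X.s q| → (X.B : ℝ) ^ H * θ ≤ |X.s q|) → (X.B : ℝ) ^ H * θ ≤ 1 →
    X.τ ≤ 1 / (X.B : ℝ) ^ H → 1 / (X.B : ℝ) ^ c ≤ X.D θ → ¬ X.Chain g m θ → False := by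
  intro m
  induction m with
  | zero => intro c; exact ⟨0, fun X θ _ _ _ _ _ h => h trivial⟩
  | succ m ih =>
    intro c
    choose Hf hHf using ih
    obtain ⟨pf, hpf⟩ : ∃ pf : ℕ → ℕ, ∀ e, pf e = (2 * c + e + 4) * d := ⟨_, fun _ => rfl⟩
    obtain ⟨f, hfd⟩ : ∃ f : ℕ → ℕ, ∀ e, f e = e + Hf (c + pf e + 1) + 2 * pf e :=
      ⟨_, fun _ => rfl⟩
    have hf : ∀ e, e ≤ f e := fun e => by rw [hfd]; omega
    obtain ⟨M, hM⟩ := gap d g f hf m g
    refine ⟨(2 * c + 4) + ∑ e ∈ range (M + 1), (pf e + c + 2 + Hf (c + pf e + 1)), ?_⟩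
    intro X θ hθ hgap hsmall hτ hD hch
    have hb := X.b_ge
    have hb0 := X.b_pos
    have hb1 : (1 : ℝ) ≤ X.B := by linarith
    have hpow : ∀ m n : ℕ, m ≤ n → (X.B : ℝ) ^ m ≤ (X.B : ℝ) ^ n :=
      fun m n h => pow_le_pow_right₀ hb1 h
    have hpos : ∀ n : ℕ, 0 < (X.B : ℝ) ^ n := fun n => pow_pos hb0 n
    set H := (2 * c + 4) + ∑ e ∈ range (M + 1), (pf e + c + 2 + Hf (c + pf e + 1)) with hH
    by_cases hne : (X.Q.filter (fun q => |X.s q| ≤ θ)).Nonempty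
    swap
    · rw [Finset.not_nonempty_iff_eq_empty] at hne
      have : X.D θ = 0 := by unfold D; rw [hne]; simp
      rw [this] at hD
      have : 0 < 1 / (X.B : ℝ) ^ c := by positivity
      linarith
    · obtain ⟨q0, hq0, hmax⟩ := Finset.exists_max_image _ (fun q => |X.s q|) hne
      rw [mem_filter] at hq0
      set E := |X.s q0| with hEdef
      have hE : 0 < E := abs_pos.mpr (X.hs0 q0 hq0.1)
      have hch2 : ¬ X.Chain g m (E / (X.B : ℝ) ^ g) := fun h => hch ⟨q0, hq0.1, hq0.2, h⟩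
      obtain ⟨e, he1, he2, he3⟩ := hM X E hE hch2
      have hHge : pf e + c + 2 + Hf (c + pf e + 1) ≤
          ∑ e ∈ range (M + 1), (pf e + c + 2 + Hf (c + pf e + 1)) :=
        Finset.single_le_sum (f := fun e => pf e + c + 2 + Hf (c + pf e + 1))
          (fun _ _ => Nat.zero_le _) (mem_range.mpr (by omega))
      have hEθ : (X.B : ℝ) ^ H * E ≤ (X.B : ℝ) ^ H * θ :=
        mul_le_mul_of_nonneg_left hq0.2 (hpos _).le
      have hD' := X.step (c := c) (e := e) (e' := f e) (h := H) (w := H) (p := pf e)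
        (θ := θ) (θ' := E / (X.B : ℝ) ^ (f e)) (E := E) hE (by positivity)
        (fun q hq hqθ => hmax q (mem_filter.mpr ⟨hq, hqθ⟩))
        (fun q hq hqθ => hEθ.trans (hgap q hq hqθ)) (hEθ.trans hsmall) he3
        (by rw [mul_div_cancel₀ _ (hpos _).ne']) hD hτ (hpf e) (by omega)
        (by rw [hfd]; omega) (by omega)
      have hfe : e + Hf (c + pf e + 1) ≤ f e := by rw [hfd]; omega
      have hkey : (X.B : ℝ) ^ (Hf (c + pf e + 1)) * (E / (X.B : ℝ) ^ (f e))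
          ≤ E / (X.B : ℝ) ^ e := by
        rw [le_div_iff₀ (hpos _)]
        have h1 := hpow _ _ hfe
        rw [pow_add] at h1
        have h2 : (X.B : ℝ) ^ (Hf (c + pf e + 1)) * (E / (X.B : ℝ) ^ (f e)) * (X.B : ℝ) ^ e
            = ((X.B : ℝ) ^ e * (X.B : ℝ) ^ (Hf (c + pf e + 1))) * (E / (X.B : ℝ) ^ (f e)) := by
          ring
        rw [h2]
        calc ((X.B : ℝ) ^ e * (X.B : ℝ) ^ (Hf (c + pf e + 1))) * (E / (X.B : ℝ) ^ (f e))
            ≤ (X.B : ℝ) ^ (f e) * (E / (X.B : ℝ) ^ (f e)) :=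
              mul_le_mul_of_nonneg_right h1 (by positivity)
          _ = E := mul_div_cancel₀ _ (hpos _).ne'
      have hE1 : E ≤ 1 := by
        have h1 : (1 : ℝ) ≤ (X.B : ℝ) ^ H := one_le_pow₀ hb1
        have h2 := hEθ.trans hsmall
        nlinarith
      refine hHf (c + pf e + 1) X (E / (X.B : ℝ) ^ (f e)) (by positivity) ?_ ?_ ?_ hD' ?_
      · intro q hq hq2
        exact hkey.trans (he3 q hq hq2)
      · refine hkey.trans ?_
        rw [div_le_one (hpos _)]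
        exact hE1.trans (one_le_pow₀ hb1)
      · refine hτ.trans ?_
        exact one_div_le_one_div_of_le (hpos _) (hpow _ _ (by omega))
      · intro h
        refine hch2 (h.mono ?_)
        have := hpow g (f e) (he1.trans (hf e))
        gcongr

theorem no_modes (d g : ℕ) : ∃ H : ℕ, ∀ X : Modes d, X.τ ≤ 1 / (X.B : ℝ) ^ H →
    ¬ X.Chain g (d + 1) (1 / (X.B : ℝ) ^ g) → False := by
  choose Hf hHf using main d g (d + 1)
  obtain ⟨pf, hpf⟩ : ∃ pf : ℕ → ℕ, ∀ e, pf e = (e + 4) * d := ⟨_, fun _ => rfl⟩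
  obtain ⟨f, hfd⟩ : ∃ f : ℕ → ℕ, ∀ e, f e = e + Hf (pf e + 1) + (2 * pf e + 3) :=
    ⟨_, fun _ => rfl⟩
  have hf : ∀ e, e ≤ f e := fun e => by rw [hfd]; omega
  obtain ⟨M, hM⟩ := gap d g f hf (d + 1) g
  refine ⟨∑ e ∈ range (M + 1), (pf e + 2 + Hf (pf e + 1)), ?_⟩
  intro X hτ hch
  have hb := X.b_ge
  have hb0 := X.b_pos
  have hb1 : (1 : ℝ) ≤ X.B := by linarith
  have hpow : ∀ m n : ℕ, m ≤ n → (X.B : ℝ) ^ m ≤ (X.B : ℝ) ^ n :=
    fun m n h => pow_le_pow_right₀ hb1 h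
  have hpos : ∀ n : ℕ, 0 < (X.B : ℝ) ^ n := fun n => pow_pos hb0 n
  set H := ∑ e ∈ range (M + 1), (pf e + 2 + Hf (pf e + 1)) with hH
  obtain ⟨e, he1, he2, he3⟩ := hM X 1 one_pos hch
  have hHge : pf e + 2 + Hf (pf e + 1) ≤ H :=
    Finset.single_le_sum (f := fun e => pf e + 2 + Hf (pf e + 1))
      (fun _ _ => Nat.zero_le _) (mem_range.mpr (by omega))
  have hD' := X.initial (e := e) (e' := f e) (w := H) (p := pf e)
    (θ' := 1 / (X.B : ℝ) ^ (f e)) (by positivity) he3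
    (by rw [mul_one_div_cancel (hpos _).ne']) hτ (hpf e)
    (by rw [hfd]; omega) (by omega)
  have hfe : e + Hf (pf e + 1) ≤ f e := by rw [hfd]; omega
  have hkey : (X.B : ℝ) ^ (Hf (pf e + 1)) * (1 / (X.B : ℝ) ^ (f e))
      ≤ 1 / (X.B : ℝ) ^ e := by
    rw [le_div_iff₀ (hpos _)]
    have h1 := hpow _ _ hfe
    rw [pow_add] at h1
    have h2 : (X.B : ℝ) ^ (Hf (pf e + 1)) * (1 / (X.B : ℝ) ^ (f e)) * (X.B : ℝ) ^ e
        = ((X.B : ℝ) ^ e * (X.B : ℝ) ^ (Hf (pf e + 1))) * (1 / (X.B : ℝ) ^ (f e)) := by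
      ring
    rw [h2]
    calc ((X.B : ℝ) ^ e * (X.B : ℝ) ^ (Hf (pf e + 1))) * (1 / (X.B : ℝ) ^ (f e))
        ≤ (X.B : ℝ) ^ (f e) * (1 / (X.B : ℝ) ^ (f e)) :=
          mul_le_mul_of_nonneg_right h1 (by positivity)
      _ = 1 := mul_one_div_cancel (hpos _).ne'
  refine hHf (pf e + 1) X (1 / (X.B : ℝ) ^ (f e)) (by positivity) ?_ ?_ ?_ hD' ?_
  · intro q hq hq2
    exact hkey.trans (he3 q hq hq2)
  · refine hkey.trans ?_
    rw [div_le_one (hpos _)]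
    exact one_le_pow₀ hb1
  · refine hτ.trans ?_
    exact one_div_le_one_div_of_le (hpos _) (hpow _ _ (by omega))
  · intro h
    refine hch (h.mono ?_)
    have := hpow g (f e) (he1.trans (hf e))
    gcongr

end Modes

end Pool.Agent.Lib.MP_3d11e1_an
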