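import Pool.Agent.Lib.MP_3d11e1_an.Core

/-!
# The two quantitative steps
-/

namespace Pool.Agent.Lib.MP_3d11e1_an

open Finset

namespace Modes

variable {d : ℕ} (X : Modes d)

/-- Passing a cluster of frequencies keeps the low-frequency amplitude bounded below. -/
theorem step {c e e' h w p : ℕ} {θ θ' E : ℝ} (hE : 0 < E) (hθ' : 0 ≤ θ')
    (hslow : ∀ q ∈ X.Q, |X.s q| ≤ θ → |X.s q| ≤ E)
    (hfast : ∀ q ∈ X.Q, θ < |X.s q| → (X.B : ℝ) ^ h * E ≤ |X.s q|)
    (hsmall : (X.B : ℝ) ^ h * E ≤ 1)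
    (hcl : ∀ q ∈ X.Q, θ' < |X.s q| → E / (X.B : ℝ) ^ e ≤ |X.s q|)
    (hθE : (X.B : ℝ) ^ e' * θ' ≤ E)
    (hD : 1 / (X.B : ℝ) ^ c ≤ X.D θ)
    (hτ : X.τ ≤ 1 / (X.B : ℝ) ^ w)
    (hp : p = (2 * c + e + 4) * d)
    (hh : 2 * c + 4 ≤ h) (he' : 2 * p ≤ e') (hw : p + c + 2 ≤ w) :
    1 / (X.B : ℝ) ^ (c + p + 1) ≤ X.D θ' := by
  have hb := X.b_ge
  have hb0 := X.b_pos
  have hb1 : (1 : ℝ) ≤ X.B := by linarith
  set b : ℝ := (X.B : ℝ) with hbdef
  have hpow : ∀ m n : ℕ, m ≤ n → b ^ m ≤ b ^ n := fun m n h => pow_le_pow_right₀ hb1 h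
  have hpos : ∀ n : ℕ, 0 < b ^ n := fun n => pow_pos hb0 n
  set J : ℕ := ⌊(1 / E) / b ^ (c + 1)⌋₊ with hJ
  -- E is at most b^{-(2c+4)}
  have hE1 : b ^ (2 * c + 4) * E ≤ 1 := by
    have := hpow _ _ hh
    nlinarith
  -- size of J
  have hJup : (J : ℝ) * (b ^ (c + 1) * E) ≤ 1 := by
    have h1 : (J : ℝ) ≤ (1 / E) / b ^ (c + 1) := Nat.floor_le (by positivity)
    have h2 : (1 / E) / b ^ (c + 1) * (b ^ (c + 1) * E) = 1 := by
      field_simp
    have h3 : 0 < b ^ (c + 1) * E := by positivity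
    nlinarith
  have hbig : b ^ (c + 3) ≤ (1 / E) / b ^ (c + 1) := by
    rw [le_div_iff₀ (hpos _), le_div_iff₀ hE, ← pow_add]
    have : c + 3 + (c + 1) = 2 * c + 4 := by ring
    rw [this]; exact hE1
  have hJlow : 0.999 * ((1 / E) / b ^ (c + 1)) ≤ J := by
    have h1 := (Nat.sub_one_lt_floor ((1 / E) / b ^ (c + 1))).le
    have h2 : (1000 : ℝ) ≤ b ^ (c + 3) := by
      calc (1000 : ℝ) ≤ b := hb
        _ = b ^ 1 := (pow_one b).symm
        _ ≤ _ := hpow _ _ (by omega)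
    have h3 : (1000 : ℝ) ≤ (1 / E) / b ^ (c + 1) := h2.trans hbig
    linarith
  have hJE : 0.999 ≤ (J : ℝ) * (b ^ (c + 1) * E) := by
    have h2 : (1 / E) / b ^ (c + 1) * (b ^ (c + 1) * E) = 1 := by
      field_simp
    have h3 : 0 < b ^ (c + 1) * E := by positivity
    nlinarith
  have hJB : (X.B : ℝ) ≤ J := by
    have h1 : b * b ≤ (1 / E) / b ^ (c + 1) := by
      calc b * b = b ^ 2 := by ring
        _ ≤ b ^ (c + 3) := hpow _ _ (by omega)
        _ ≤ _ := hbig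
    nlinarith
  have hJB' : X.B ≤ J := by exact_mod_cast hJB
  have hJ0 : (0 : ℝ) < J := by linarith
  -- near return
  obtain ⟨κ, hκ1, hκ2, hκ3⟩ := X.dir J (2 * c + e + 2)
  have hpp : (2 * c + e + 2 + 2) * d = p := by rw [hp]
  rw [hpp] at hκ2
  have hκ2' : (κ : ℝ) ≤ b ^ p := by
    rw [hbdef]; exact_mod_cast hκ2
  set ρ : ℝ := 1 / b ^ (2 * c + e + 2) with hρ
  have hρ0 : 0 ≤ ρ := by positivity
  obtain ⟨k, rfl⟩ : ∃ k, κ = k + 1 := ⟨κ - 1, by omega⟩
  have hsplit : (k + 1) * J = k * J + J := by ring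
  have hSA : 0 ≤ X.S (k * J) := by
    rcases Nat.eq_zero_or_pos k with hk | hk
    · rw [hk, zero_mul]; simp [S]
    · have h1 : X.N0 ≤ k * J := by
        calc X.N0 ≤ X.B := X.hN0B
          _ ≤ J := hJB'
          _ ≤ k * J := Nat.le_mul_of_pos_left J hk
      have := X.two_le_S h1
      linarith
  have hlow := X.lower (k * J) J (ρ := ρ) (θ := θ) (E := E) (G := b ^ h * E) hρ0
    (by rw [← hsplit]; exact hκ3) hE.le (by positivity) hslow hfast
  have hup := X.upper ((k + 1) * J) (ρ := ρ) (θ := θ') (G := E / b ^ e) hρ0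
    hκ3 hθ' (by positivity) hcl
  rw [← hsplit] at hlow
  set P : ℕ := (k + 1) * J with hP
  have hPJ : (P : ℝ) ≤ b ^ p * J := by
    rw [hP]; push_cast
    push_cast at hκ2'
    exact mul_le_mul_of_nonneg_right hκ2' hJ0.le
  have hP0 : (0 : ℝ) < P := by
    rw [hP]; push_cast; positivity
  rw [← hbdef] at hup hlow
  -- the unit of measure
  set z : ℝ := J / b ^ c with hz
  have hz0 : 0 < z := by positivity
  have hJz : (J : ℝ) = z * b ^ c := by rw [hz]; field_simp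
  -- terms of the lower bound
  have t1 : z ≤ J * X.D θ := by
    have := mul_le_mul_of_nonneg_left hD hJ0.le
    rw [hz]; calc (J : ℝ) / b ^ c = J * (1 / b ^ c) := by ring
      _ ≤ _ := this
  have t2 : b / 100 * (J * ρ) ≤ 0.00001 * z := by
    have h1 : ρ ≤ 1 / b ^ (c + 2) := by
      rw [hρ]
      exact one_div_le_one_div_of_le (hpos _) (hpow _ _ (by omega))
    have h2 : b * (1 / b ^ (c + 2)) = 1 / b ^ c * (1 / b) := by
      rw [pow_add]; field_simp
    have h3 : 1 / b ≤ 0.001 := by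
      rw [div_le_iff₀ hb0]; linarith
    have h4 : b / 100 * (J * ρ) ≤ b / 100 * (J * (1 / b ^ (c + 2))) := by gcongr
    have h5 : b / 100 * (J * (1 / b ^ (c + 2))) = z / 100 * (1 / b) := by
      rw [hz, pow_add]; field_simp
    have h6 : z / 100 * (1 / b) ≤ z / 100 * 0.001 := by gcongr
    linarith
  have t3 : b / 100 * (J * (7 * (J * E))) ≤ 0.07 * z := by
    have h1 : b / 100 * (J * (7 * (J * E))) = 0.07 * z * (J * (b ^ (c + 1) * E)) := by
      rw [hz, pow_succ]; field_simp; ring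
    rw [h1]
    nlinarith
  have t4 : b / 100 * (2 / (4 * (b ^ h * E))) ≤ 0.001 * z := by
    have h1 : b ^ (2 * c + 4) * E ≤ b ^ h * E := by
      have := hpow _ _ hh
      nlinarith
    have h2 : b / 100 * (2 / (4 * (b ^ h * E))) ≤ b / 100 * (2 / (4 * (b ^ (2 * c + 4) * E))) := by
      gcongr
    have h3 : b / 100 * (2 / (4 * (b ^ (2 * c + 4) * E)))
        = (1 / (200 * b ^ (c + 2))) * (1 / (b ^ (c + 1) * E)) := by
      have : b ^ (2 * c + 4) = b ^ (c + 2) * b ^ (c + 1) * b := by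
        rw [← pow_add, ← pow_succ]; congr 1; ring
      rw [this]; field_simp; ring
    have h4 : 1 / (b ^ (c + 1) * E) ≤ J / 0.999 := by
      rw [div_le_div_iff₀ (by positivity) (by norm_num)]
      linarith
    have h5 : (1 / (200 * b ^ (c + 2))) * (1 / (b ^ (c + 1) * E))
        ≤ (1 / (200 * b ^ (c + 2))) * (J / 0.999) := by gcongr
    have h6 : (1 / (200 * b ^ (c + 2))) * (J / 0.999) = z / (199.8 * (b * b)) := by
      rw [hz, pow_add]; field_simp; ring
    have h7 : z / (199.8 * (b * b)) ≤ 0.001 * z := by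
      rw [div_le_iff₀ (by positivity)]
      nlinarith [mul_le_mul hb hb (by norm_num) hb0.le]
    linarith
  have t5 : J * X.τ ≤ 0.001 * z := by
    have h1 : X.τ ≤ 1 / b ^ (c + 1) := by
      refine hτ.trans ?_
      exact one_div_le_one_div_of_le (hpos _) (hpow _ _ (by omega))
    have h2 : J * X.τ ≤ J * (1 / b ^ (c + 1)) := by gcongr
    have h3 : J * (1 / b ^ (c + 1)) = z * (1 / b) := by
      rw [hz, pow_succ]; field_simp
    have h4 : 1 / b ≤ 0.001 := by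
      rw [div_le_iff₀ hb0]; linarith
    nlinarith
  have hgrow : 0.9 * z ≤ X.S P := by
    have : b / 100 * (J * (ρ + 7 * (J * E)) + 2 / (4 * (b ^ h * E)))
        = b / 100 * (J * ρ) + b / 100 * (J * (7 * (J * E))) + b / 100 * (2 / (4 * (b ^ h * E))) := by
      ring
    rw [this] at hlow
    linarith
  -- terms of the upper bound
  have s1 : b / 100 * (P * (7 * (P * θ'))) ≤ 0.07 * z := by
    have h1 : (P : ℝ) * P ≤ (b ^ p * J) * (b ^ p * J) := mul_le_mul hPJ hPJ hP0.le (by positivity)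
    have h2 : θ' ≤ E / b ^ (2 * p) := by
      rw [le_div_iff₀ (hpos _)]
      have := mul_le_mul_of_nonneg_right (hpow _ _ he') hθ'
      linarith
    have h3 : (P : ℝ) * P * θ' ≤ (b ^ p * J) * (b ^ p * J) * (E / b ^ (2 * p)) :=
      mul_le_mul h1 h2 hθ' (by positivity)
    have h4 : (b ^ p * J) * (b ^ p * J) * (E / b ^ (2 * p)) = J * (J * E) := by
      rw [two_mul, pow_add]; field_simp
    have h5 : b / 100 * (P * (7 * (P * θ'))) = 7 * b / 100 * ((P : ℝ) * P * θ') := by ring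
    rw [h5]
    rw [h4] at h3
    have h6 : 7 * b / 100 * ((P : ℝ) * P * θ') ≤ 7 * b / 100 * (J * (J * E)) := by gcongr
    have h7 : 7 * b / 100 * (J * (J * E)) = 0.07 * z * (J * (b ^ (c + 1) * E)) := by
      rw [hz, pow_succ]; field_simp; ring
    have h8 : 0.07 * z * (J * (b ^ (c + 1) * E)) ≤ 0.07 * z * 1 := by gcongr
    linarith
  have s2 : b / 100 * (ρ / (4 * (E / b ^ e))) ≤ 0.003 * z := by
    have h1 : b / 100 * (ρ / (4 * (E / b ^ e)))
        = (1 / (400 * b ^ c)) * (1 / (b ^ (c + 1) * E)) := by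
      have : b ^ (2 * c + e + 2) = b ^ e * b ^ (c + 1) * b ^ c * b := by
        rw [← pow_add, ← pow_add, ← pow_succ]; congr 1; ring
      rw [hρ, this]; field_simp; ring
    have h4 : 1 / (b ^ (c + 1) * E) ≤ J / 0.999 := by
      rw [div_le_div_iff₀ (by positivity) (by norm_num)]
      linarith
    have h5 : (1 / (400 * b ^ c)) * (1 / (b ^ (c + 1) * E))
        ≤ (1 / (400 * b ^ c)) * (J / 0.999) := by gcongr
    have h6 : (1 / (400 * b ^ c)) * (J / 0.999) = z / 399.6 := by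
      rw [hz]; field_simp; ring
    rw [h1]
    have : z / 399.6 ≤ 0.003 * z := by
      rw [div_le_iff₀ (by norm_num)]; linarith
    linarith
  have s3 : P * X.τ ≤ 0.001 * z := by
    have h1 : X.τ ≤ 1 / b ^ (p + c + 1) := by
      refine hτ.trans ?_
      exact one_div_le_one_div_of_le (hpos _) (hpow _ _ (by omega))
    have h2 : P * X.τ ≤ (b ^ p * J) * (1 / b ^ (p + c + 1)) :=
      mul_le_mul hPJ h1 X.τ_nonneg (by positivity)
    have h3 : (b ^ p * J) * (1 / b ^ (p + c + 1)) = z * (1 / b) := by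
      rw [hz, pow_succ, pow_add]; field_simp
    have h4 : 1 / b ≤ 0.001 := by
      rw [div_le_iff₀ hb0]; linarith
    nlinarith
  have hfin : 0.8 * z ≤ P * X.D θ' := by
    have : b / 100 * (P * (7 * (P * θ')) + ρ / (4 * (E / b ^ e)))
        = b / 100 * (P * (7 * (P * θ'))) + b / 100 * (ρ / (4 * (E / b ^ e))) := by ring
    rw [this] at hup
    linarith
  have hDpos : 0 < X.D θ' := by
    by_contra hcon
    push Not at hcon
    nlinarith
  have hfin2 : 0.8 * z ≤ b ^ p * J * X.D θ' := by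
    refine hfin.trans ?_
    exact mul_le_mul_of_nonneg_right hPJ hDpos.le
  rw [div_le_iff₀ (hpos _)]
  have e1 : b ^ (c + p + 1) = b ^ c * b ^ p * b := by rw [pow_succ, pow_add]
  rw [e1]
  have e2 : 0.8 * z ≤ z * (b ^ c * b ^ p * X.D θ') := by
    calc 0.8 * z ≤ b ^ p * J * X.D θ' := hfin2
      _ = z * (b ^ c * b ^ p * X.D θ') := by rw [hJz]; ring
  have e3 : 0.8 ≤ b ^ c * b ^ p * X.D θ' := by
    by_contra hcon
    push Not at hcon
    nlinarith
  nlinarith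

/-- The initial step. -/
theorem initial {e e' w p : ℕ} {θ' : ℝ} (hθ' : 0 ≤ θ')
    (hcl : ∀ q ∈ X.Q, θ' < |X.s q| → 1 / (X.B : ℝ) ^ e ≤ |X.s q|)
    (hθE : (X.B : ℝ) ^ e' * θ' ≤ 1)
    (hτ : X.τ ≤ 1 / (X.B : ℝ) ^ w)
    (hp : p = (e + 4) * d)
    (he' : 2 * p + 3 ≤ e') (hw : p + 2 ≤ w) :
    1 / (X.B : ℝ) ^ (p + 1) ≤ X.D θ' := by
  have hb := X.b_ge
  have hb0 := X.b_pos
  have hb1 : (1 : ℝ) ≤ X.B := by linarith
  set b : ℝ := (X.B : ℝ) with hbdef
  have hpow : ∀ m n : ℕ, m ≤ n → b ^ m ≤ b ^ n := fun m n h => pow_le_pow_right₀ hb1 h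
  have hpos : ∀ n : ℕ, 0 < b ^ n := fun n => pow_pos hb0 n
  obtain ⟨κ, hκ1, hκ2, hκ3⟩ := X.dir X.N0 (e + 2)
  have hpp : (e + 2 + 2) * d = p := by rw [hp]
  rw [hpp] at hκ2
  have hκ2' : (κ : ℝ) ≤ b ^ p := by
    rw [hbdef]; exact_mod_cast hκ2
  set ρ : ℝ := 1 / b ^ (e + 2) with hρ
  have hρ0 : 0 ≤ ρ := by positivity
  have hup := X.upper (κ * X.N0) (ρ := ρ) (θ := θ') (G := 1 / b ^ e) hρ0
    hκ3 hθ' (by positivity) hcl
  have hS := X.two_le_S (n := κ * X.N0) (Nat.le_mul_of_pos_left _ hκ1)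
  set P : ℕ := κ * X.N0 with hP
  have hN : (X.N0 : ℝ) ≤ b := by rw [hbdef]; exact_mod_cast X.hN0B
  have hPb : (P : ℝ) ≤ b ^ (p + 1) := by
    rw [hP, pow_succ]; push_cast
    exact mul_le_mul hκ2' hN (by positivity) (by positivity)
  have hP0 : (0 : ℝ) ≤ P := by positivity
  rw [← hbdef] at hup
  have s1 : b / 100 * (P * (7 * (P * θ'))) ≤ 0.07 := by
    have h1 : (P : ℝ) * P ≤ b ^ (p + 1) * b ^ (p + 1) := mul_le_mul hPb hPb hP0 (by positivity)
    have h2 : b ^ (2 * p + 3) * θ' ≤ 1 := by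
      have := mul_le_mul_of_nonneg_right (hpow _ _ he') hθ'
      linarith
    have h3 : (P : ℝ) * P * θ' ≤ b ^ (p + 1) * b ^ (p + 1) * θ' :=
      mul_le_mul_of_nonneg_right h1 hθ'
    have h4 : b * (b ^ (p + 1) * b ^ (p + 1) * θ') = b ^ (2 * p + 3) * θ' := by ring
    have h5 : b / 100 * (P * (7 * (P * θ'))) = 0.07 * (b * ((P : ℝ) * P * θ')) := by ring
    rw [h5]
    have h6 : b * ((P : ℝ) * P * θ') ≤ b * (b ^ (p + 1) * b ^ (p + 1) * θ') := by gcongr
    linarith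
  have s2 : b / 100 * (ρ / (4 * (1 / b ^ e))) ≤ 0.01 := by
    have h1 : b / 100 * (ρ / (4 * (1 / b ^ e))) = 1 / (400 * b) := by
      rw [hρ, pow_add]; field_simp; norm_num
    rw [h1, div_le_iff₀ (by positivity)]
    linarith
  have s3 : P * X.τ ≤ 0.001 := by
    have h1 : X.τ ≤ 1 / b ^ (p + 2) := by
      refine hτ.trans ?_
      exact one_div_le_one_div_of_le (hpos _) (hpow _ _ (by omega))
    have h2 : P * X.τ ≤ b ^ (p + 1) * (1 / b ^ (p + 2)) :=
      mul_le_mul hPb h1 X.τ_nonneg (by positivity)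
    have h3 : b ^ (p + 1) * (1 / b ^ (p + 2)) = 1 / b := by
      rw [show b ^ (p + 2) = b ^ (p + 1) * b from pow_succ _ _]; field_simp
    have h4 : 1 / b ≤ 0.001 := by
      rw [div_le_iff₀ hb0]; linarith
    linarith
  have hfin : 1 ≤ P * X.D θ' := by
    have : b / 100 * (P * (7 * (P * θ')) + ρ / (4 * (1 / b ^ e)))
        = b / 100 * (P * (7 * (P * θ'))) + b / 100 * (ρ / (4 * (1 / b ^ e))) := by ring
    rw [this] at hup
    linarith
  have hDpos : 0 < X.D θ' := by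
    by_contra hcon
    push Not at hcon
    nlinarith
  rw [div_le_iff₀ (hpos _)]
  have := mul_le_mul_of_nonneg_right hPb hDpos.le
  linarith

end Modes

end Pool.Agent.Lib.MP_3d11e1_an
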